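import Pool.Agent.Lib.MP_bca3e5_nt.RC.Defs
import Pool.Agent.Lib.MP_0da313_nt.CM.P.cnt
import Pool.Agent.Lib.MP_0da313_nt.CM.P.pw1

set_option autoImplicit false

/-!
[RC cnt]: the number of good points.
-/

namespace Pool.Agent.RC

open Finset Filter Polynomial
open ArithmeticFunction (cardFactors)
open Pool.Agent.MP89da58 (bil pw nn supp part kapD)
open Pool.Agent.MT (PJf LocD dvI ZI sp Dl)
open Pool.Agent.BVall (om PK lev)
open Pool.Agent.Lib.MP_0da313_nt (Admissible lineRestrict val singV small)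
open Pool.Agent.CH.S (th Pr gd RepC V)
open Pool.Agent.CM (Fam F12 F3 kz ky k3 lD al cv z0)
open Pool.Agent.CM.W (WPk yM)
open Pool.Agent.CM.F (DF qf Par Pre Wts cnt_z_le_lev cnt_z_pos cnt_V cnt_a0 cm_pw1_ev cm_pw1_yM)

/-- The combinatorial core. -/
theorem rc_cnt_core {ι : Type} [Fintype ι] [DecidableEq ι] [Nonempty ι] (E : Finset ℕ)
    (Z : ℕ → ℝ) (hZ : ∀ x ∈ E, 0 ≤ Z x) (a : ι → ℕ → ℝ) (ha : ∀ i x, 0 ≤ a i x)
    [∀ x, DecidablePred (fun i => a i x ≠ 0)] {Y τ H L : ℝ}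
    (hY : 0 ≤ Y) (hτ : 0 ≤ τ) (hL : 0 < L) (ha2 : ∀ i x, a i x ≤ 2 * L)
    (h1 : ∀ i, 14 / 1000 * (τ * Y) ≤ ∑ x ∈ E, a i x * Z x)
    (h2 : ∑ x ∈ E, Z x ≤ 121 * Y / L) (h3 : ∀ x ∈ E, ∀ i, a i x ≠ 0 → Z x ≤ H) :
    7 / 1000 * (τ * Y) ≤ 2 * L * H * ((E.filter (fun x =>
      1 / 40000 * (Fintype.card ι * τ) ≤ ((univ.filter (fun i => a i x ≠ 0)).card : ℝ) ∧
      1 ≤ (univ.filter (fun i => a i x ≠ 0)).card)).card : ℝ) := by
  classical
  set K : ℝ := (Fintype.card ι : ℝ) with hK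
  have hK1 : 1 ≤ K := by
    rw [hK]
    exact_mod_cast Fintype.card_pos
  set N : ℕ → ℕ := fun x => (univ.filter (fun i => a i x ≠ 0)).card with hN
  have hNK : ∀ x, (N x : ℝ) ≤ K := by
    intro x
    rw [hK]
    exact_mod_cast Finset.card_le_univ _
  set s : ℝ := 1 / 40000 * (K * τ) with hs
  have hs0 : 0 ≤ s := by positivity
  have e0 : ∀ x, ∑ i, a i x ≤ 2 * L * N x := by
    intro x
    calc ∑ i, a i x = ∑ i ∈ univ.filter (fun i => a i x ≠ 0), a i x := by
          rw [Finset.sum_filter]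
          apply Finset.sum_congr rfl
          intro i _
          by_cases h0 : a i x = 0
          · simp [h0]
          · simp [h0]
      _ ≤ ∑ _i ∈ univ.filter (fun i => a i x ≠ 0), 2 * L :=
          Finset.sum_le_sum fun i _ => ha2 i x
      _ = _ := by rw [Finset.sum_const, nsmul_eq_mul, mul_comm]
  have e1 : K * (14 / 1000 * (τ * Y)) ≤ ∑ x ∈ E, (∑ i, a i x) * Z x := by
    calc K * (14 / 1000 * (τ * Y)) = ∑ _i : ι, 14 / 1000 * (τ * Y) := by
          rw [Finset.sum_const, nsmul_eq_mul, Finset.card_univ]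
      _ ≤ ∑ i : ι, ∑ x ∈ E, a i x * Z x := Finset.sum_le_sum fun i _ => h1 i
      _ = ∑ x ∈ E, (∑ i, a i x) * Z x := by
          rw [Finset.sum_comm]
          apply Finset.sum_congr rfl
          intro x _
          rw [Finset.sum_mul]
  set P : ℕ → Prop := fun x => s ≤ (N x : ℝ) ∧ 1 ≤ N x with hP
  have e2 : ∀ x ∈ E, (∑ i, a i x) * Z x ≤
      2 * L * s * Z x + 2 * L * K * H * (if P x then (1 : ℝ) else 0) := by
    intro x hx
    have h0 := hZ x hx
    have h4 := e0 x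
    have h5 : 0 ≤ ∑ i, a i x := Finset.sum_nonneg fun i _ => ha i x
    by_cases hp : P x
    · rw [if_pos hp, mul_one]
      have h6 : (univ.filter (fun i => a i x ≠ 0)).Nonempty := Finset.card_pos.1 hp.2
      obtain ⟨i, hi⟩ := h6
      have h7 := h3 x hx i (Finset.mem_filter.1 hi).2
      have h8 : ∑ i, a i x ≤ 2 * L * K :=
        h4.trans (mul_le_mul_of_nonneg_left (hNK x) (by positivity))
      have h9 : (∑ i, a i x) * Z x ≤ 2 * L * K * H := mul_le_mul h8 h7 h0 (by positivity)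
      have h10 : 0 ≤ 2 * L * s * Z x := by positivity
      linarith
    · rw [if_neg hp, mul_zero, add_zero]
      have h6 : (N x : ℝ) ≤ s := by
        rw [hP] at hp
        simp only [not_and, not_le, Nat.lt_one_iff] at hp
        by_contra hc
        rw [not_le] at hc
        have := hp hc.le
        rw [this] at hc
        push_cast at hc
        linarith
      apply mul_le_mul_of_nonneg_right _ h0
      exact h4.trans (mul_le_mul_of_nonneg_left h6 (by positivity))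
  have e3 : K * (14 / 1000 * (τ * Y)) ≤ 2 * L * s * (121 * Y / L) +
      2 * L * K * H * ∑ x ∈ E, (if P x then (1 : ℝ) else 0) := by
    calc K * (14 / 1000 * (τ * Y)) ≤ ∑ x ∈ E, (∑ i, a i x) * Z x := e1
      _ ≤ ∑ x ∈ E, (2 * L * s * Z x + 2 * L * K * H * (if P x then (1 : ℝ) else 0)) :=
          Finset.sum_le_sum e2
      _ = 2 * L * s * ∑ x ∈ E, Z x + 2 * L * K * H * ∑ x ∈ E, (if P x then (1 : ℝ) else 0) := by
          rw [Finset.sum_add_distrib, Finset.mul_sum, Finset.mul_sum]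
      _ ≤ _ := by
          have := mul_le_mul_of_nonneg_left h2 (show 0 ≤ 2 * L * s by positivity)
          linarith
  have e4 : ∑ x ∈ E, (if P x then (1 : ℝ) else 0) =
      ((E.filter (fun x => s ≤ (N x : ℝ) ∧ 1 ≤ N x)).card : ℝ) := by
    rw [Finset.card_filter]
    push_cast
    apply Finset.sum_congr rfl
    intro x _
    simp only [hP]
  rw [e4] at e3
  have e5 : 2 * L * s * (121 * Y / L) = K * (605 / 100000 * (τ * Y)) := by
    rw [hs]; field_simp; ring
  rw [e5] at e3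
  have hτY : 0 ≤ τ * Y := mul_nonneg hτ hY
  set T : ℝ := ((E.filter (fun x => s ≤ (N x : ℝ) ∧ 1 ≤ N x)).card : ℝ) with hT
  have e6 : K * (7 / 1000 * (τ * Y)) ≤ K * (2 * L * H * T) := by nlinarith
  exact le_of_mul_le_mul_left e6 (by linarith)

theorem rc_cnt_V_nonneg (a w : ℕ) : 0 ≤ V a w := by
  unfold V
  apply Finset.prod_nonneg
  intro p hp
  unfold Pr at hp
  have hp2 : (2 : ℝ) ≤ p := by exact_mod_cast (Finset.mem_filter.1 hp).2.1.two_le
  unfold gd
  have : 1 / ((p : ℝ) - 1) ≤ 1 := by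
    rw [div_le_one (by linarith)]
    linarith
  linarith

/-- The pointwise comparison. -/
theorem rc_cnt_pt {α f12 zi g3 cc om sq : ℝ} (R Ro : Prop) [Decidable R] [Decidable Ro]
    (hα0 : 0 ≤ α) (hzi : 0 ≤ zi) (hos : 0 ≤ sq)
    (q1 : α ≠ 0 → f12 - 1 / 2 * (if R then cc else 0) ≤ if R ∧ Ro then om + sq else 0)
    (q3 : (if R then α * cc else 0) ≤ g3) :
    α * (f12 * zi) ≤ 1 / 2 * (g3 * zi) +
      (α * zi * (if R ∧ Ro then om else 0) + α * (if R then zi * sq else 0)) := by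
  have q4 := mul_le_mul_of_nonneg_right q3 hzi
  by_cases hα1 : α = 0
  · subst hα1
    split_ifs at q4 ⊢ <;> nlinarith
  · have q5 := mul_le_mul_of_nonneg_left (q1 hα1) hα0
    have q6 := mul_le_mul_of_nonneg_right q5 hzi
    have q7 : 0 ≤ α * (zi * sq) := mul_nonneg hα0 (mul_nonneg hzi hos)
    by_cases hR : R
    · by_cases hRo : Ro
      · simp only [if_pos hR, if_pos (show R ∧ Ro from ⟨hR, hRo⟩)] at q4 q6 ⊢
        nlinarith
      · simp only [if_pos hR, if_neg (show ¬ (R ∧ Ro) from fun h => hRo h.2)] at q4 q6 ⊢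
        nlinarith
    · simp only [if_neg hR, if_neg (show ¬ (R ∧ Ro) from fun h => hR h.1)] at q4 q6 ⊢
      nlinarith

theorem p_cnt : S_cnt := by
  classical
  intro hsw hnr hpwr hU0 hvu hT12 hT3 hpw3 hwm hsq hpre hP hwin hwp
  obtain ⟨c', hc'0, hc'1, hwp⟩ := hwp
  refine ⟨1 / 40000 * c', by positivity, ?_⟩
  intro ι _ _ _
  obtain ⟨M, hM1, hwp⟩ := hwp ι
  refine ⟨M, hM1, ?_⟩
  intro D B0 h hD hB0 hh
  obtain ⟨K, hK⟩ : ∃ K : ℝ, K = (Fintype.card ι : ℝ) := ⟨_, rfl⟩
  have hK1 : 1 ≤ K := by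
    rw [hK]
    exact_mod_cast Fintype.card_pos
  have hB0r : (1 : ℝ) ≤ B0 := by exact_mod_cast hB0
  obtain ⟨B, hB⟩ : ∃ B : ℕ, B = B0 ^ Fintype.card ι := ⟨_, rfl⟩
  have hB1 : (1 : ℝ) ≤ B := by
    rw [hB]
    push_cast
    exact one_le_pow₀ hB0r
  obtain ⟨H, hH⟩ : ∃ H : ℝ, H = (2 ^ (Fintype.card ι * (B0 + 1)) * (B : ℝ)) ^ 2 := ⟨_, rfl⟩
  have hH0 : 0 < H := by rw [hH]; positivity
  refine ⟨7 / 2000 * c' * h / (K * B0 ^ 2 * H), by positivity, ?_⟩
  intro F hFh
  obtain ⟨C, hC1, hC⟩ : ∃ C : ℕ, 1 ≤ C ∧ ∀ᶠ n : ℕ in atTop, ∀ l, 3 * F.X n l < C * n := by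
    obtain ⟨C, hC⟩ := exists_nat_gt (∑ l, 3 * (|F.t l| + |(F.c l : ℝ)|))
    refine ⟨C + 1, by omega, ?_⟩
    filter_upwards [eventually_ge_atTop 1] with n hn l
    have hnR : (1 : ℝ) ≤ n := by exact_mod_cast hn
    have h1 : 3 * (|F.t l| + |(F.c l : ℝ)|) ≤ ∑ l, 3 * (|F.t l| + |(F.c l : ℝ)|) :=
      Finset.single_le_sum (f := fun l => 3 * (|F.t l| + |(F.c l : ℝ)|))
        (fun i _ => by positivity) (Finset.mem_univ l)
    unfold Fam.X
    push_cast
    have h2 := le_abs_self (F.t l)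
    have h3 := le_abs_self (F.c l : ℝ)
    have h4 := abs_nonneg (F.c l : ℝ)
    nlinarith
  set c1 : ℝ := ∏ p ∈ small (2 * D), (1 / (p : ℝ)) with hc1
  have hc1pos : 0 < c1 := by
    apply Finset.prod_pos
    intro p hp
    have hpp : p.Prime := (Finset.mem_filter.mp hp).2
    have : (0 : ℝ) < p := by exact_mod_cast hpp.pos
    positivity
  have hcast : Tendsto (fun n : ℕ => (n : ℝ)) atTop atTop := tendsto_natCast_atTop_atTop
  have evlog : ∀ᶠ n : ℕ in atTop, 1 + 2500 * K * B0 / (c' * h * c1) ≤ Real.log n :=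
    hcast.eventually (Real.tendsto_log_atTop.eventually_ge_atTop _)
  have hCi : ∀ i : ι, ∀ᶠ n : ℕ in atTop, ∀ l, 3 * (sw F i).X n l < C * n := by
    intro i
    filter_upwards [hC] with n hC
    exact (hsw ι D F i).2.2.1 n _ hC
  have evi : ∀ i : ι, ∀ᶠ n : ℕ in atTop, 3 * ((kz n : ℝ) + ky C n) <
      (sw F i).t none * n + (sw F i).c none :=
    fun i => cm_pw1_ev C ((hwin ι D (sw F i)).1 none).1
  filter_upwards [eventually_all.2 (fun i => hT12 ι D (sw F i) C B0 M B (8 * D + 2) hC1 hD hB0 hM1),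
    eventually_all.2 (fun i => hT3 ι D (sw F i) C B0 M B (8 * D + 2) hC1 hD hB0 hM1),
    hU0 ι D F B0 M B (8 * D + 3) hD hB0 hM1,
    eventually_all.2 (fun i => hpwr ι D (sw F i) C B0 M hD hB0 hM1 (hCi i)),
    eventually_all.2 (fun i => hpw3 ι D (sw F i) C B0 M hD hB0 hM1 hC1),
    eventually_all.2 (fun i => hwm ι D (sw F i) B0 M B hD hB0 hM1),
    eventually_all.2 (fun i => hsq ι D (sw F i) B0 M B (8 * D + 2) hD hB0 hM1),
    hP ι D F B0 hB0, eventually_all.2 (fun i => (hwin ι D (sw F i)).2), hwp B0 hB0, hC, evlog,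
    eventually_all.2 evi, eventually_all.2 (fun i => hnr ι D (sw F i)), hvu,
    eventually_ge_atTop (F.N0 + C + 3)] with n hT12 hT3 hU0 hpwr hpw3 hwm hsq hP hwin hwp hC evlog
    evi hnr hvu hnN
  intro n' hzB hlev hl
  have hn1 : 1 ≤ n := by omega
  have hnR : (1 : ℝ) ≤ n := by exact_mod_cast hn1
  have hn0 : (0 : ℝ) < n := by linarith
  have hE0 : 0 ≤ 2500 * K * B0 / (c' * h * c1) := by positivity
  have hlog1 : 1 ≤ Real.log n := by linarith
  -- the parameters
  have hzlev := cnt_z_le_lev D n'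
  have hz1 := cnt_z_pos D n'
  have hz2 : 2 ≤ z0 D n' := by
    unfold z0
    calc 2 = 2 ^ 1 := (pow_one 2).symm
      _ ≤ 2 ^ (2 ^ (2 * D + n')) := Nat.pow_le_pow_right (by norm_num) Nat.one_le_two_pow
  have hlev1 : (1 : ℝ) ≤ lev (2 * D) n' := by exact_mod_cast hz1.trans hzlev
  have hzlevR : (z0 D n' : ℝ) ≤ lev (2 * D) n' := by exact_mod_cast hzlev
  have hzM : (z0 D n' : ℝ) ^ M ≤ (n : ℝ) ^ (1 / 1000 : ℝ) := by
    refine le_trans ?_ hlev
    calc (z0 D n' : ℝ) ^ M ≤ (lev (2 * D) n' : ℝ) ^ M := pow_le_pow_left₀ (by positivity) hzlevR _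
      _ ≤ _ := pow_le_pow_right₀ hlev1 (by omega)
  have hzn : (z0 D n' : ℝ) ≤ (n : ℝ) ^ (1 / 1000 : ℝ) := by
    refine le_trans ?_ hzM
    have : (1 : ℝ) ≤ z0 D n' := by exact_mod_cast hz1
    calc (z0 D n' : ℝ) = (z0 D n' : ℝ) ^ 1 := (pow_one _).symm
      _ ≤ _ := pow_le_pow_right₀ this hM1
  have hlev3 : (lev (2 * D) n' : ℝ) ^ 3 ≤ (n : ℝ) ^ (1 / 1000 : ℝ) :=
    le_trans (pow_le_pow_right₀ hlev1 (by omega)) hlev
  obtain ⟨_, _, P, Ex, hP1, hP2, hP3, hP4⟩ := hP (z0 D n') (yM M n) hzB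
  obtain ⟨lam, lami, A, τ, hW, hτ1, hτ2⟩ := hwp (z0 D n') hzB hzM P Ex hP1 hP3 hP4
  obtain ⟨Fp, Fm, hFp, hFm, hpt, hmt⟩ := hpre (2 * D) (by omega) n'
  have hPre : Pre D n' Fp Fm := ⟨hFp, hFm, hpt, hmt⟩
  have hPar : Par F B0 M n n' P := ⟨hzB, hlev3, hP1, hP2⟩
  have hPari : ∀ i, Par (sw F i) B0 M n n' P := fun i => (hsw ι D F i).2.2.2.1 B0 M n n' P hPar
  have hBr : (B : ℝ) = (B0 : ℝ) ^ Fintype.card ι := by rw [hB]; push_cast; rfl
  have hWts0 : Wts B (yM M n) none none lam := by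
    refine ⟨fun α => ?_, hW.sup, fun α _ j i _ => ⟨by simp, by simp⟩⟩
    rw [hBr]
    exact hW.bd α
  have hWts1 : ∀ i, Wts B (yM M n) none (some i) (lami i) := by
    intro i
    refine ⟨fun α => ?_, fun α hα => (hW.supi i α hα).2, fun α hα j i' hj => ⟨by simp, ?_⟩⟩
    · rw [hBr]
      exact hW.bdi i α
    · intro hii
      have h1 := (hW.supi i α hα).1
      rw [Option.some.inj hii] at hj
      have h2 : j ∈ part α i := by
        unfold part
        simp [hj]
      rw [h1] at h2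
      simp at h2
  have hWts2 : ∀ i, Wts B (yM M n) none none (lami i) := fun i =>
    ((hsw ι D F i).2.2.2.2 n B (yM M n) P (lami i) (hWts1 i)).1
  have hZIi : ∀ (i : ι) (x : ℤ), ZI (DF (sw F i) n P) (lami i) x = ZI (DF F n P) (lami i) x :=
    fun i => ((hsw ι D F i).2.2.2.2 n B (yM M n) P (lami i) (hWts1 i)).2
  have hLs : ∀ (i : ι) (x : ℤ), (sw F i).L n none x = F.L n (some i) x :=
    fun i x => ((hsw ι D F i).1 n x).1
  have hLn : ∀ (i : ι) (x : ℤ), (sw F i).L n (some i) x = F.L n none x :=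
    fun i x => ((hsw ι D F i).1 n x).2
  have hRs : ∀ (i : ι) (x : ℤ), (sw F i).Rg n (z0 D n') x ↔ F.Rg n (z0 D n') x :=
    fun i x => Iff.rfl
  have hVs : ∀ i : ι, (sw F i).V n n' = F.V n n' := fun i => rfl
  have hhws : ∀ i : ι, (sw F i).hw = F.hw := fun i => rfl
  have hCis : ∀ i : ι, ∀ l, 3 * (sw F i).X n l < C * n := fun i =>
    (hsw ι D F i).2.2.1 n _ hC
  -- abbreviations
  set z := z0 D n' with hz
  set κ := kapD z with hκ
  have hκ0 : 0 < κ := Pool.Agent.MT.kapD_pos z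
  have hκ1 : κ ≤ 1 := Pool.Agent.MT.kapD_le_one z
  have hκz : κ * Real.log z ≤ 1 := Pool.Agent.MT.kapD_mul_log_le z hz1
  have hlognz : Real.log n ≤ B0 * Real.log z := by
    have h1 : (n : ℝ) ≤ (z : ℝ) ^ B0 := by exact_mod_cast hzB
    have h2 := Real.log_le_log hn0 h1
    rwa [Real.log_pow] at h2
  have hκn : κ * Real.log n ≤ B0 := by
    calc κ * Real.log n ≤ κ * (B0 * Real.log z) := mul_le_mul_of_nonneg_left hlognz hκ0.le
      _ = B0 * (κ * Real.log z) := by ring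
      _ ≤ B0 * 1 := mul_le_mul_of_nonneg_left hκz (by linarith)
      _ = B0 := mul_one _
  have hV := cnt_V F hD (by omega : F.N0 ≤ n) hl
  rw [← hc1] at hV
  have hV0 : 0 < F.V n n' := lt_of_lt_of_le (by positivity) hV
  set Φ : ℝ := F.hw * n * (F.V n n' / κ) with hΦ
  have hΦ0 : 0 < Φ := by rw [hΦ, hFh]; positivity
  set e : ℝ := n / (Real.log n) ^ (8 * D + 2) with he
  have he0 : 0 ≤ e := by rw [he]; positivity
  have hA1 : 1 ≤ A := hW.one
  have hτ0 : 0 < τ := lt_of_lt_of_le (by positivity) hτ1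
  rw [← hK] at hτ1 hτ2
  -- `e` is small
  have hΦe : 2500 * (K * B0 / c') * e ≤ Φ := by
    have h1 : h * n * (c1 * (1 / Real.log n ^ (8 * D))) ≤ Φ := by
      rw [hΦ, hFh]
      apply mul_le_mul_of_nonneg_left _ (by positivity)
      refine hV.trans ?_
      rw [le_div_iff₀ hκ0]
      nlinarith
    refine le_trans ?_ h1
    have h4 : 2500 * K * B0 / (c' * h * c1) ≤ Real.log n ^ 2 := by nlinarith
    rw [div_le_iff₀ (by positivity)] at h4
    have h5 : 2500 * (K * B0 / c') * e = 2500 * K * B0 * (n / (c' * Real.log n ^ (8 * D + 2))) := by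
      rw [he]; field_simp
    have h6 : h * n * (c1 * (1 / Real.log n ^ (8 * D))) =
        Real.log n ^ 2 * (c' * h * c1) * (n / (c' * Real.log n ^ (8 * D + 2))) := by
      rw [pow_add]
      field_simp
    rw [h5, h6]
    exact mul_le_mul_of_nonneg_right h4 (by positivity)
  have hq1 : 1 ≤ K * B0 / c' := by
    rw [le_div_iff₀ hc'0]
    nlinarith
  have hsmall0 : 2500 * e ≤ Φ := by nlinarith
  have hsmall : 2500 * e ≤ τ * (Φ * A) := by
    have h2 : c' / (K * B0) ≤ τ * A := by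
      calc c' / (K * B0) ≤ τ := hτ1
        _ = τ * 1 := (mul_one _).symm
        _ ≤ τ * A := mul_le_mul_of_nonneg_left hA1 hτ0.le
    have h3 : Φ * (c' / (K * B0)) ≤ Φ * (τ * A) := mul_le_mul_of_nonneg_left h2 hΦ0.le
    have h4 : 2500 * (K * B0 / c') * e * (c' / (K * B0)) ≤ Φ * (c' / (K * B0)) :=
      mul_le_mul_of_nonneg_right hΦe (by positivity)
    have h5 : 2500 * (K * B0 / c') * e * (c' / (K * B0)) = 2500 * e := by
      field_simp
    calc 2500 * e ≤ Φ * (τ * A) := by linarith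
      _ = _ := by ring
  -- the point functions
  set a : ι → ℕ → ℝ := fun i x => (sw F i).a0 n ((sw F i).L n none (x : ℤ)).toNat with ha
  have hX3 : ∀ i, ∀ x : ℤ, 0 < (sw F i).L n none x →
      (sw F i).wi n none ((sw F i).L n none x).toNat ≠ 0 →
      ((sw F i).L n none x : ℝ) ≤ 3 * (sw F i).X n none :=
    fun i x h1 h2 => (((hwin i).2.1 none x h1 h2).2.2 none).2
  have hafact := fun (i : ι) (x : ℤ) => cnt_a0 (sw F i) hn1 (by omega : C ≤ n) (hCis i none)
    (hX3 i) x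
  set Z : ℕ → ℝ := fun x => ZI (DF F n P) lam (x : ℤ) ^ 2 with hZ
  have hZ0 : ∀ x, 0 ≤ Z x := fun x => sq_nonneg _
  -- linking
  have hlink : ∀ (i : ι) (x : ℕ), a i x ≠ 0 →
      ZI (DF (sw F i) n P) (lami i) (x : ℤ) ^ 2 = Z x := by
    intro i x hax
    rw [hZIi i]
    have h1 : ZI (DF F n P) lam (x : ℤ) = ZI (DF F n P) (lami i) (x : ℤ) := by
      apply hW.link
      intro j hj
      obtain ⟨g1, g2, g3⟩ := (hafact i (x : ℤ)).2.2 hax
      have hj' := hPar.hP j.1 j.2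
      have hj2 : (((j : ℕ) : ℤ)) ∣ (sw F i).L n none (x : ℤ) := by
        rw [hLs]
        exact hj
      have hj3 : (j : ℕ) ∣ ((sw F i).L n none (x : ℤ)).natAbs := by
        exact Int.natCast_dvd.1 hj2
      rcases (Nat.dvd_prime g2).1 hj3 with h3 | h3
      · exact hj'.1.one_lt.ne' h3
      · have h4 := (((hwin i).2.1 none (x : ℤ) g1 g3).2.2 none).1
        have h5 := evi i
        have h6 : (sw F i).X n none = (sw F i).t none * n + (sw F i).c none := rfl
        have h7 : ((j : ℕ) : ℝ) = ((sw F i).L n none (x : ℤ) : ℝ) := by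
          have h8 : (((j : ℕ) : ℤ)) = (sw F i).L n none (x : ℤ) := by omega
          exact_mod_cast h8
        have h9 : ((j : ℕ) : ℝ) ≤ (yM M n : ℝ) := by exact_mod_cast hj'.2.2
        have h10 := cm_pw1_yM (n := n) hM1
        have h11 : (n : ℝ) ^ (1 / 11 : ℝ) ≤ kz n := Nat.le_ceil _
        have h12 : (n : ℝ) ^ (1 / 1000 : ℝ) ≤ (n : ℝ) ^ (1 / 11 : ℝ) :=
          Real.rpow_le_rpow_of_exponent_le hnR (by norm_num)
        have h13 : (0 : ℝ) ≤ ky C n := Nat.cast_nonneg _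
        have h14 : (0 : ℝ) < ((j : ℕ) : ℝ) := by exact_mod_cast hj'.1.pos
        linarith
    rw [hZ]
    simp only
    rw [h1]
  -- the set of the good points
  set E : Finset ℕ := (Ioo 0 n).filter (fun x : ℕ => (F.Rg n z x ∧ Near F n x ∧
      Rou (kz n) (F.L n none x).toNat) ∧ cardFactors (F.L n none x).toNat ≤ 2) with hE
  have hEsum : ∑ x ∈ E, Z x ≤ 121 * (Φ * A) / Real.log n := by
    have h1 := hU0 n' P hPar Fp Fm hPre lam hWts0
    have h2 : ∑ x ∈ E, Z x ≤ ∑ x ∈ (Ioo 0 n).filter (fun x : ℕ => F.Rg n (z0 D n') x ∧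
        Near F n x ∧ Rou (kz n) (F.L n none x).toNat), ZI (DF F n P) lam x ^ 2 := by
      apply Finset.sum_le_sum_of_subset_of_nonneg
      · intro x hx
        rw [hE, Finset.mem_filter] at hx
        rw [Finset.mem_filter]
        exact ⟨hx.1, hx.2.1⟩
      · intro x _ _
        exact sq_nonneg _
    refine h2.trans (h1.trans ?_)
    rw [← hz]
    have h3 : qf lam ≤ 2 * A := hW.up
    have h4 := hvu z hz2 hzn
    rw [← hκ] at h4
    have h5 : 0 ≤ V (z + 1) (kz n) := rc_cnt_V_nonneg _ _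
    have h6 : F.hw * n * F.V n n' = Φ * κ := by rw [hΦ]; field_simp
    have h7 : (n : ℝ) / Real.log n ^ (8 * D + 3) = e / Real.log n := by
      rw [he, show 8 * D + 3 = (8 * D + 2) + 1 by ring, pow_succ, div_div]
    rw [h6, h7]
    have h8 : V (z + 1) (kz n) * qf lam ≤ V (z + 1) (kz n) * (2 * A) :=
      mul_le_mul_of_nonneg_left h3 h5
    have h9 : 5 * (Φ * κ) * (V (z + 1) (kz n) * qf lam) ≤
        5 * (Φ * κ) * (V (z + 1) (kz n) * (2 * A)) :=
      mul_le_mul_of_nonneg_left h8 (by positivity)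
    have h10 : e ≤ Φ * A := by nlinarith
    have hlog0 : 0 < Real.log n := by linarith
    rw [le_div_iff₀ hlog0, add_mul, div_mul_cancel₀ _ hlog0.ne']
    have h11 : 5 * (Φ * κ) * (V (z + 1) (kz n) * qf lam) * Real.log n ≤
        5 * (Φ * κ) * (V (z + 1) (kz n) * (2 * A)) * Real.log n :=
      mul_le_mul_of_nonneg_right h9 hlog0.le
    have h12 : 5 * (Φ * κ) * (V (z + 1) (kz n) * (2 * A)) * Real.log n =
        10 * (Φ * A) * (V (z + 1) (kz n) * (κ * Real.log n)) := by ring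
    have h13 : 10 * (Φ * A) * (V (z + 1) (kz n) * (κ * Real.log n)) ≤ 10 * (Φ * A) * 12 :=
      mul_le_mul_of_nonneg_left h4 (by positivity)
    linarith
  -- the sums for the single members
  have h1 : ∀ i : ι, 14 / 1000 * (τ * (Φ * A)) ≤ ∑ x ∈ E, a i x * Z x := by
    intro i
    have kk1 := hT12 i n' P (hPari i) Fp Fm hPre i (lami i) (hWts1 i)
    have kk3 := hT3 i n' P (hPari i) Fp Fm hPre i (lami i) (hWts1 i)
    have kk4 := hsq i n' P (hPari i) (lami i) (hWts2 i) i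
    have hb : τ * A ≤ V (z + 1) (kz n) * qf (lami i) := hW.lo i
    have kk2 : ∑ x ∈ Ioo 0 n, (sw F i).a0 n ((sw F i).L n none x).toNat *
        (F12 Fp Fm (z0 D n' + 1) (kz n) (ky C n) (lD n) ((sw F i).ri n (z0 D n') none (some i) x) *
          ZI (DF (sw F i) n P) (lami i) x ^ 2) ≤
        1 / 2 * (Real.log (3 * (sw F i).X n none) *
          ∑ x ∈ Ioo 0 n, (sw F i).a3 C n i ((sw F i).L n (some i) x).toNat *
          (F3 Fp (z0 D n' + 1) (k3 n) (lD n) ((sw F i).ri n (z0 D n') (some i) none x) *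
            ZI (DF (sw F i) n P) (lami i) x ^ 2)) +
        (∑ x ∈ E, a i x * Z x +
        ∑ x ∈ Ioo 0 n, (sw F i).a0 n ((sw F i).L n none x).toNat *
          (if (sw F i).Rg n (z0 D n') x then ZI (DF (sw F i) n P) (lami i) x ^ 2 *
            (if ∃ q : ℕ, q.Prime ∧ kz n ≤ q ∧ q ^ 2 ∣ ((sw F i).L n (some i) x).toNat
              then 1 else 0) else 0)) := by
      rw [hE, Finset.sum_filter, Finset.mul_sum, Finset.mul_sum, ← Finset.sum_add_distrib,
        ← Finset.sum_add_distrib]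
      apply Finset.sum_le_sum
      intro x _
      have hα0 := (hafact i (x : ℤ)).1
      have q1 := hpwr i n' P (hPari i) Fp Fm hPre (x : ℤ) i
      have q3 := hpw3 i n' P (hPari i) Fp Fm hPre (x : ℤ) i
      have hos : (0 : ℝ) ≤ (if ∃ q : ℕ, q.Prime ∧ kz n ≤ q ∧
          q ^ 2 ∣ ((sw F i).L n (some i) x).toNat then (1 : ℝ) else 0) := by
        split_ifs <;> norm_num
      refine le_trans (rc_cnt_pt
        (om := (if cardFactors ((sw F i).L n (some i) (x : ℤ)).toNat ≤ 2 then (1 : ℝ) else 0))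
        ((sw F i).Rg n (z0 D n') (x : ℤ)) (Rou (kz n) ((sw F i).L n (some i) x).toNat) hα0
        (sq_nonneg (ZI (DF (sw F i) n P) (lami i) (x : ℤ))) hos q1 q3) ?_
      have q5 : a i x * ZI (DF (sw F i) n P) (lami i) (x : ℤ) ^ 2 *
          (if (sw F i).Rg n (z0 D n') (x : ℤ) ∧ Rou (kz n) ((sw F i).L n (some i) x).toNat then
            (if cardFactors ((sw F i).L n (some i) (x : ℤ)).toNat ≤ 2 then (1 : ℝ) else 0)
            else 0) ≤
          (if (F.Rg n z x ∧ Near F n x ∧ Rou (kz n) (F.L n none x).toNat) ∧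
            cardFactors (F.L n none x).toNat ≤ 2 then a i x * Z x else 0) := by
        by_cases hax : a i x = 0
        · rw [hax]
          split_ifs <;> simp
        · rw [hlink i x hax]
          obtain ⟨g1, g2, g3⟩ := (hafact i (x : ℤ)).2.2 hax
          have g4 : Near F n (x : ℤ) := hnr i none (x : ℤ) g1 g3
          rw [hLn i (x : ℤ)]
          by_cases hc1 : (sw F i).Rg n (z0 D n') (x : ℤ) ∧ Rou (kz n) (F.L n none x).toNat
          · rw [if_pos hc1]
            by_cases hc2 : cardFactors (F.L n none (x : ℤ)).toNat ≤ 2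
            · rw [if_pos hc2, if_pos ⟨⟨hc1.1, g4, hc1.2⟩, hc2⟩, mul_one]
            · rw [if_neg hc2, mul_zero]
              split_ifs
              · exact mul_nonneg hα0 (hZ0 x)
              · exact le_rfl
          · rw [if_neg hc1, mul_zero]
            split_ifs
            · exact mul_nonneg hα0 (hZ0 x)
            · exact le_rfl
      have q6 : 1 / 2 * (Real.log (3 * (sw F i).X n none) *
          ((sw F i).a3 C n i ((sw F i).L n (some i) x).toNat *
          F3 Fp (z0 D n' + 1) (k3 n) (lD n) ((sw F i).ri n (z0 D n') (some i) none x)) *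
            ZI (DF (sw F i) n P) (lami i) x ^ 2) = 1 / 2 * (Real.log (3 * (sw F i).X n none) *
          ((sw F i).a3 C n i ((sw F i).L n (some i) x).toNat *
          (F3 Fp (z0 D n' + 1) (k3 n) (lD n) ((sw F i).ri n (z0 D n') (some i) none x) *
            ZI (DF (sw F i) n P) (lami i) x ^ 2))) := by ring
      rw [q6]
      gcongr
    rw [hVs i, hhws i] at kk1 kk3
    have kk5 : Φ * (τ * A) ≤ Φ * (V (z + 1) (kz n) * qf (lami i)) :=
      mul_le_mul_of_nonneg_left hb hΦ0.le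
    have kk6 : Φ * (τ * A) = τ * (Φ * A) := by ring
    rw [kk6] at kk5
    have kk7 : 0 ≤ τ * (Φ * A) := by positivity
    rw [← hz] at kk1 kk2 kk3 kk4
    linarith
  have hEH : ∀ x ∈ E, ∀ i, a i x ≠ 0 → Z x ≤ H := by
    intro x hx i hax
    rw [hE, Finset.mem_filter] at hx
    have h2 := hwm i n' P (hPari i) (lami i) (hWts2 i) x hax hx.2.1.1
    rw [hlink i x hax, ← hH] at h2
    exact h2
  have hfin := rc_cnt_core E Z (fun x _ => hZ0 x) a (fun i x => (hafact i (x : ℤ)).1)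
    (Y := Φ * A) (τ := τ) (H := H) (L := Real.log n) (by positivity) hτ0.le (by linarith)
    (fun i x => (hafact i (x : ℤ)).2.1) h1 hEsum hEH
  -- comparison of the sets
  have hsub : ((E.filter (fun x =>
      1 / 40000 * (Fintype.card ι * τ) ≤ ((univ.filter (fun i => a i x ≠ 0)).card : ℝ) ∧
      1 ≤ (univ.filter (fun i => a i x ≠ 0)).card)).card : ℝ)
      ≤ (((Ioo 0 n).filter (fun x : ℕ => F.Rg n (z0 D n') x ∧
    (cardFactors (F.L n none x).natAbs ≤ 2 ∧ Rou (kz n) (F.L n none x).natAbs) ∧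
    1 / 40000 * c' * Real.log (Fintype.card ι) ≤
      ((univ.filter (fun i : ι => (F.L n (some i) x).natAbs.Prime)).card : ℝ) ∧
    1 ≤ (univ.filter (fun i : ι => (F.L n (some i) x).natAbs.Prime)).card)).card : ℝ) := by
    have : (E.filter (fun x =>
      1 / 40000 * (Fintype.card ι * τ) ≤ ((univ.filter (fun i => a i x ≠ 0)).card : ℝ) ∧
      1 ≤ (univ.filter (fun i => a i x ≠ 0)).card)).card
      ≤ ((Ioo 0 n).filter (fun x : ℕ => F.Rg n (z0 D n') x ∧
    (cardFactors (F.L n none x).natAbs ≤ 2 ∧ Rou (kz n) (F.L n none x).natAbs) ∧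
    1 / 40000 * c' * Real.log (Fintype.card ι) ≤
      ((univ.filter (fun i : ι => (F.L n (some i) x).natAbs.Prime)).card : ℝ) ∧
    1 ≤ (univ.filter (fun i : ι => (F.L n (some i) x).natAbs.Prime)).card)).card := by
      apply Finset.card_le_card
      intro x hx
      rw [Finset.mem_filter, hE, Finset.mem_filter] at hx
      rw [Finset.mem_filter]
      obtain ⟨⟨hxI, ⟨hRx, -, hRou⟩, hcf⟩, hN1, hN2⟩ := hx
      obtain ⟨i, hi⟩ := Finset.card_pos.1 hN2
      have hax := (Finset.mem_filter.1 hi).2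
      obtain ⟨g1, g2, g3⟩ := (hafact i (x : ℤ)).2.2 hax
      have g4 : (F.L n none (x : ℤ)).toNat = (F.L n none (x : ℤ)).natAbs := by
        have g5 := (((hwin i).2.1 none (x : ℤ) g1 g3).2.2 (some i)).1
        have g6 := (hwin i).1 (some i)
        rw [hLn i] at g5
        have g7 : (0 : ℝ) < F.L n none (x : ℤ) := by linarith
        have g8 : 0 < F.L n none (x : ℤ) := by exact_mod_cast g7
        omega
      rw [g4] at hRou hcf
      have hle : (univ.filter (fun i => a i x ≠ 0)).card ≤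
          (univ.filter (fun i : ι => (F.L n (some i) x).natAbs.Prime)).card := by
        apply Finset.card_le_card
        intro k hk
        rw [Finset.mem_filter] at hk ⊢
        refine ⟨hk.1, ?_⟩
        have h2 := ((hafact k (x : ℤ)).2.2 hk.2).2.1
        rwa [hLs k] at h2
      have hleR : ((univ.filter (fun i => a i x ≠ 0)).card : ℝ) ≤
          ((univ.filter (fun i : ι => (F.L n (some i) x).natAbs.Prime)).card : ℝ) := by
        exact_mod_cast hle
      refine ⟨hxI, hRx, ⟨hcf, hRou⟩, ?_, hN2.trans hle⟩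
      refine le_trans ?_ hleR
      refine le_trans ?_ hN1
      rw [← hK]
      linarith
    exact_mod_cast this
  refine le_trans ?_ hsub
  set T : ℝ := ((E.filter (fun x =>
      1 / 40000 * (Fintype.card ι * τ) ≤ ((univ.filter (fun i => a i x ≠ 0)).card : ℝ) ∧
      1 ≤ (univ.filter (fun i => a i x ≠ 0)).card)).card : ℝ) with hT
  have hT0 : 0 ≤ T := Nat.cast_nonneg _
  have m1 : c' / (K * B0) * (F.hw * n * F.V n n') ≤ τ * (Φ * A) * κ := by
    have m2 : Φ * κ = F.hw * n * F.V n n' := by rw [hΦ]; field_simp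
    calc c' / (K * B0) * (F.hw * n * F.V n n') ≤ τ * (F.hw * n * F.V n n') := by
          apply mul_le_mul_of_nonneg_right hτ1
          rw [hFh]; positivity
      _ = τ * (Φ * κ) := by rw [m2]
      _ ≤ τ * (Φ * κ) * A := by
          have : 0 ≤ τ * (Φ * κ) := by positivity
          nlinarith
      _ = _ := by ring
  have m3 : 7 / 1000 * (τ * (Φ * A)) * κ ≤ 2 * B0 * H * T := by
    calc 7 / 1000 * (τ * (Φ * A)) * κ ≤ 2 * Real.log n * H * T * κ :=
          mul_le_mul_of_nonneg_right hfin hκ0.le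
      _ = 2 * H * T * (κ * Real.log n) := by ring
      _ ≤ 2 * H * T * B0 := mul_le_mul_of_nonneg_left hκn (by positivity)
      _ = _ := by ring
  have m4 : 7 / 1000 * (c' / (K * B0) * (h * n * F.V n n')) ≤ 2 * B0 * H * T := by
    rw [hFh] at m1
    linarith
  have m5 : 7 / 2000 * c' * h / (K * B0 ^ 2 * H) * (n * F.V n n') =
      7 / 1000 * (c' / (K * B0) * (h * n * F.V n n')) / (2 * B0 * H) := by
    field_simp
    ring
  rw [m5, div_le_iff₀ (by positivity)]
  linarith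

end Pool.Agent.RC
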