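import Pool.Agent.Lib.MP_bca3e5_nt.RC.Defs
import Pool.Agent.Lib.MP_0da313_nt.CM.P.app
import Pool.Agent.Lib.MP_0da313_nt.CM.P.S0
import Pool.Agent.Lib.MP_0da313_nt.CM.P.T3
import Pool.Agent.Lib.MP_0da313_nt.CM.P.dns
import Pool.Agent.Lib.MP_0da313_nt.MT.T2
import Pool.Agent.Lib.MP_89da58_nt.BvW

set_option autoImplicit false
set_option linter.unusedSectionVars false

/-!
[RC U0] The upper bound for the sum of the weights over the points at which the form `none` has no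
prime factor `< kz n`.
-/

namespace Pool.Agent.RC

open Finset Filter Polynomial
open Pool.Agent.MP89da58 (bil pw nn supp part kapD)
open Pool.Agent.MT (PJf LocD dvI ZI sp Dl Dl_loc Dl_cop W_ind dens_poly card_root_lin)
open Pool.Agent.BVall (om PK lev RepB Dens mem_PK dvd_eval_congr)
open Pool.Agent.Lib.MP_0da313_nt (W card_roots_mod_lt card_roots_mod_le)
open Pool.Agent.CH.S (th Pr gd RepC V)
open Pool.Agent.CM (Fam F12 F3 kz ky k3 lD al cv z0)
open Pool.Agent.CM.W (WPk yM)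
open Pool.Agent.CM.F (DF qf Par Pre Wts)

lemma rc_U0_tel (z : ℕ) : ∀ K : ℕ, z + 1 ≤ K →
    ∑ m ∈ Ico (z + 1) K, (1 / ((m : ℝ) - 1) - 1 / m) = 1 / z - 1 / ((K : ℝ) - 1) := by
  intro K hK
  induction K, hK using Nat.le_induction with
  | base =>
    rw [Finset.Ico_self, Finset.sum_empty]
    push_cast
    rw [add_sub_cancel_right, sub_self]
  | succ K hK ih =>
    rw [Finset.sum_Ico_succ_top hK, ih]
    push_cast
    rw [add_sub_cancel_right]
    ring

section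

variable {ι : Type} [Fintype ι] [DecidableEq ι] {D : ℕ}

/-- The condition at the prime `p`. -/
def rc_U0_Q (F : Fam ι D) (n z : ℕ) (p : ℕ) (y : ℤ) : Prop :=
  if p ≤ z then (p : ℤ) ∣ (F.G n).eval y else (p : ℤ) ∣ F.L n none y

open Classical in
/-- The density. -/
noncomputable def rc_U0_rho (F : Fam ι D) (n z : ℕ) (p : ℕ) : ℝ :=
  if p ≤ z then (om (fun p y => (p : ℤ) ∣ (F.G n).eval y) p : ℝ) / p else gd p

lemma rc_U0_dvdL (F : Fam ι D) (n : ℕ) (p : ℕ) (m : Option ι) (x x' : ℤ)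
    (h : (p : ℤ) ∣ x - x') : ((p : ℤ) ∣ F.L n m x ↔ (p : ℤ) ∣ F.L n m x') := by
  unfold Fam.L
  have e : (F.u m * x + F.v n m) - (F.u m * x' + F.v n m) = F.u m * (x - x') := by ring
  have h1 : (p : ℤ) ∣ (F.u m * x + F.v n m) - (F.u m * x' + F.v n m) := by
    rw [e]; exact h.mul_left _
  constructor
  · intro h2
    have := dvd_sub h2 h1
    rwa [sub_sub_cancel] at this
  · intro h2
    have := dvd_add h1 h2
    rwa [sub_add_cancel] at this

lemma rc_U0_det (F : Fam ι D) (n p : ℕ) (m m' : Option ι) (x : ℤ) (h1 : (p : ℤ) ∣ F.L n m x)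
    (h2 : (p : ℤ) ∣ F.L n m' x) : (p : ℤ) ∣ F.u m * F.v n m' - F.u m' * F.v n m := by
  unfold Fam.L at h1 h2
  have e : F.u m * F.v n m' - F.u m' * F.v n m =
      F.u m * (F.u m' * x + F.v n m') - F.u m' * (F.u m * x + F.v n m) := by ring
  rw [e]
  exact dvd_sub (h2.mul_left _) (h1.mul_left _)

open Classical in
lemma rc_U0_om1 (F : Fam ι D) {n z p : ℕ} (hp : p ≤ z) :
    om (rc_U0_Q F n z) p = om (fun p y => (p : ℤ) ∣ (F.G n).eval y) p := by
  apply CM.L.dns_om_congr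
  intro y
  unfold rc_U0_Q
  rw [if_pos hp]

open Classical in
lemma rc_U0_om2 (F : Fam ι D) {n z p : ℕ} (hn : F.N0 ≤ n) (hpp : p.Prime) (hp : z < p)
    (hu : ¬ p ∣ (F.u none).natAbs) : om (rc_U0_Q F n z) p = 1 := by
  have h1 := card_root_lin (F.huv n hn none) hpp
  rw [if_neg hu] at h1
  rw [← h1]
  unfold om
  congr 1
  ext x
  rw [Finset.mem_filter, Finset.mem_filter]
  unfold rc_U0_Q Fam.L Fam.v
  rw [if_neg (by omega)]

open Classical in
lemma rc_U0_GH (F : Fam ι D) (hD : 1 ≤ D) {B0 M n n' : ℕ} {P P1 : Finset ℕ} (hn : F.N0 ≤ n)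
    (hpar : Par F B0 M n n' P) (hPu : ∀ l (p : ℕ), p.Prime → z0 D n' < p → ¬ p ∣ (F.u l).natAbs)
    (hz2 : 2 ≤ z0 D n') (hP1 : ∀ p ∈ P1, p.Prime) :
    GH0 P P1 (DF F n P) (rc_U0_Q F n (z0 D n')) D (z0 D n') := by
  have hPp : ∀ p ∈ P, p.Prime := fun p hp => (hpar.hP p hp).1
  refine ⟨hz2, fun p hp => ⟨(hpar.hP p hp).1, (hpar.hP p hp).2.1⟩, hP1, ?_, ?_, ?_, ?_, hD, ?_⟩
  · exact Dl_loc hPp (fun p hp i => hPu (some i) p (hpar.hP p hp).1 (hpar.hP p hp).2.1)
      (fun i => F.huv n hn (some i)) _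
  · intro j i i' x hii
    exact Dl_cop (fun p hp i i' hii => hpar.hdet p hp (some i) (some i')
      (fun h => hii (Option.some.inj h))) j i i' x hii
  · intro p x x' h
    unfold rc_U0_Q
    split_ifs
    · rw [dvd_eval_congr (F.G n) h]
    · rw [rc_U0_dvdL F n p none x x' h]
  · intro j i x hd hq
    have hjz : ¬ (j : ℕ) ≤ z0 D n' := not_le.2 (hpar.hP j.1 j.2).2.1
    unfold rc_U0_Q at hq
    rw [if_neg hjz] at hq
    exact hpar.hdet j.1 j.2 (some i) none (by simp) (rc_U0_det F n j.1 (some i) none x hd hq)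
  · intro p hp
    rcases le_or_gt p (z0 D n') with h | h
    · rw [rc_U0_om1 F h]
      unfold om
      exact card_roots_mod_le (F.G n) p D hp (F.hdeg n hn) (F.hloc n hn p hp)
    · rw [rc_U0_om2 F hn hp h (hPu none p hp h)]
      exact hD

open Classical in
lemma rc_U0_rho01 (F : Fam ι D) {n z : ℕ} (hz : 2 ≤ z) (p : ℕ) :
    0 ≤ rc_U0_rho F n z p ∧ rc_U0_rho F n z p ≤ 1 := by
  unfold rc_U0_rho
  split_ifs with h
  · refine ⟨by positivity, ?_⟩
    apply div_le_one_of_le₀ _ (Nat.cast_nonneg _)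
    have h1 : om (fun p y => (p : ℤ) ∣ (F.G n).eval y) p ≤ p := by
      unfold om
      refine (Finset.card_filter_le _ _).trans ?_
      rw [Finset.card_range]
    exact_mod_cast h1
  · have h2 : (2 : ℝ) ≤ (p : ℝ) - 1 := by
      have : (3 : ℝ) ≤ p := by exact_mod_cast (by omega : 3 ≤ p)
      linarith
    unfold gd
    refine ⟨div_nonneg zero_le_one (by linarith), ?_⟩
    rw [div_le_one (by linarith)]
    linarith

end

/-- the error sum over the squarefree numbers -/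
lemma rc_U0_sqf (b N : ℕ) (hN : 1 ≤ N) :
    ∑ q ∈ (Icc 1 N).filter Squarefree, (b : ℝ) ^ q.primeFactors.card ≤
      N * (1 + Real.log N) ^ b := by
  have h1 := Pool.Agent.MP89da58.sum_omega_le b N hN
  have h2 : ∑ q ∈ (Icc 1 N).filter Squarefree, (b : ℝ) ^ q.primeFactors.card ≤
      N * ∑ q ∈ (Icc 1 N).filter Squarefree, (b : ℝ) ^ q.primeFactors.card / q := by
    rw [Finset.mul_sum]
    apply Finset.sum_le_sum
    intro q hq
    obtain ⟨h3, h4⟩ := Finset.mem_Icc.1 (Finset.mem_filter.1 hq).1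
    have h5 : (0 : ℝ) < q := by exact_mod_cast h3
    have h6 : (q : ℝ) ≤ N := by exact_mod_cast h4
    rw [mul_div_assoc', le_div_iff₀ h5, mul_comm (N : ℝ)]
    exact mul_le_mul_of_nonneg_left h6 (by positivity)
  exact h2.trans (mul_le_mul_of_nonneg_left h1 (Nat.cast_nonneg _))

/-- the first error term -/
lemma rc_U0_e1 (b A : ℕ) (B : ℝ) : ∀ᶠ n : ℕ in atTop, ∀ N : ℕ, (N : ℝ) ≤ (n : ℝ) ^ (1 / 2 : ℝ) →
    B ^ 2 * (3 * ∑ q ∈ (Icc 1 N).filter Squarefree, (b : ℝ) ^ q.primeFactors.card) ≤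
      1 / 4 * (n / (Real.log n) ^ A) := by
  filter_upwards [CM.F.ev_log_nat (12 * B ^ 2 * 2 ^ b) (b + A) (show (0 : ℝ) < 1 / 2 by norm_num),
    eventually_ge_atTop 3] with n hn hn3 N hN
  have hn3' : (3 : ℝ) ≤ n := by exact_mod_cast hn3
  have hn0 : (0 : ℝ) < n := by linarith
  set L := Real.log n with hL
  have hL1 : 1 ≤ L := by
    rw [hL, Real.le_log_iff_exp_le hn0]
    have := Real.exp_one_lt_d9
    linarith
  have hLA : 0 < L ^ A := by positivity
  set w := (n : ℝ) ^ (1 / 2 : ℝ) with hw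
  have hw0 : 0 ≤ w := Real.rpow_nonneg hn0.le _
  have hww : w * w = n := by
    rw [hw, ← Real.rpow_add hn0]
    norm_num
  have hwn : w ≤ n := by
    calc w ≤ (n : ℝ) ^ (1 : ℝ) :=
          Real.rpow_le_rpow_of_exponent_le (by linarith) (by norm_num)
      _ = n := Real.rpow_one _
  rcases Nat.eq_zero_or_pos N with h0 | h0
  · subst h0
    rw [Finset.Icc_eq_empty (by norm_num), Finset.filter_empty, Finset.sum_empty]
    have : 0 ≤ (n : ℝ) / L ^ A := by positivity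
    linarith
  · have h1 := rc_U0_sqf b N h0
    have hN1 : (1 : ℝ) ≤ N := by exact_mod_cast h0
    have h2 : Real.log N ≤ L := Real.log_le_log (by linarith) (hN.trans hwn)
    have h20 : 0 ≤ Real.log N := Real.log_nonneg hN1
    have h3 : (1 + Real.log N) ^ b ≤ 2 ^ b * L ^ b := by
      rw [← mul_pow]
      exact pow_le_pow_left₀ (by linarith) (by linarith) b
    have h4 : (N : ℝ) * (1 + Real.log N) ^ b ≤ w * (2 ^ b * L ^ b) :=
      mul_le_mul hN h3 (by positivity) hw0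
    have h5 : B ^ 2 * (3 * ∑ q ∈ (Icc 1 N).filter Squarefree, (b : ℝ) ^ q.primeFactors.card) ≤
        B ^ 2 * (3 * (w * (2 ^ b * L ^ b))) := by
      apply mul_le_mul_of_nonneg_left _ (sq_nonneg B)
      linarith [h1.trans h4]
    refine h5.trans ?_
    have h6 : B ^ 2 * (3 * (w * (2 ^ b * L ^ b))) =
        1 / 4 * (w * (12 * B ^ 2 * 2 ^ b * L ^ (b + A)) / L ^ A) := by
      rw [pow_add]
      field_simp
      ring
    rw [h6]
    apply mul_le_mul_of_nonneg_left _ (by norm_num)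
    apply div_le_div_of_nonneg_right _ hLA.le
    rw [← hww]
    exact mul_le_mul_of_nonneg_left hn hw0

open Classical in
theorem p_U0 : S_U0 := by
  intro hgen hmn hrc hpt hbp hpr hP ι _ _ _ D F B0 M B A hD hB0 hM
  obtain ⟨C1, hC1, hpr1⟩ := hpr (2 * D)
  obtain ⟨C2, hC2, hpr2⟩ := hpr (3 * Fintype.card ι)
  have hlogt : Tendsto (fun n : ℕ => Real.log (n : ℝ)) atTop atTop :=
    Real.tendsto_log_atTop.comp tendsto_natCast_atTop_atTop
  have hhwt : ∀ᶠ n : ℕ in atTop, 100 ≤ F.hw * n := by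
    have h1 : Tendsto (fun n : ℕ => F.hw * (n : ℝ)) atTop atTop :=
      tendsto_natCast_atTop_atTop.const_mul_atTop F.hhw
    exact h1.eventually_ge_atTop 100
  filter_upwards [hP ι D F B0 hB0, CM.F.cm_S0_small F B0 M (Fintype.card ι), hmn B0 hB0,
    CM.F.cm_T3_lim 1 le_rfl,
    CM.F.tail_ev B0 (A + 1) (2 * D) (3 * Fintype.card ι) B C1 C2 hB0 hC1 hC2,
    CM.F.tail_ev B0 (A + 1) 0 (3 * Fintype.card ι) B 1 C2 hB0 one_pos hC2,
    rc_U0_e1 (6 * Fintype.card ι * D) A B, hlogt.eventually_ge_atTop 2, hhwt]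
    with n hPn hsm hmn hlim htail1 htail2 he1 hL2 hhw100
  intro n' P hpar Fp Fm hpre g hg
  obtain ⟨hzl, hzK, hzn1, hn3, hN0, hz1⟩ := hsm n' P hpar
  obtain ⟨hPu, -, -⟩ := hPn (z0 D n') 0 hpar.hzB
  set z := z0 D n' with hz
  obtain ⟨l1, l2, l3, l4, l5, l6⟩ := hlim z hz1 hzl
  have hn3' : (3 : ℝ) ≤ n := by exact_mod_cast hn3
  have hn0 : (0 : ℝ) < n := by linarith
  have hn1 : (1 : ℝ) ≤ n := by linarith
  have hhw := F.hhw
  have hhw8 : 8 * F.hw ≤ 1 := by linarith [F.hxi0, F.hxi1]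
  set L := Real.log n with hL
  have hL0 : 0 < L := by linarith
  have hz2 : 2 ≤ z := by
    rw [hz]
    unfold z0
    calc 2 = 2 ^ 1 := by norm_num
      _ ≤ 2 ^ (2 ^ (2 * D + n')) := Nat.pow_le_pow_right (by norm_num) Nat.one_le_two_pow
  have hzR : (0 : ℝ) < z := by exact_mod_cast (by omega : 0 < z)
  have hkn : kz n ≤ n := l2.trans l6
  have hpow1 : (n : ℝ) ^ (1 / 1000 : ℝ) ≤ n := by
    calc (n : ℝ) ^ (1 / 1000 : ℝ) ≤ (n : ℝ) ^ (1 : ℝ) :=
          Real.rpow_le_rpow_of_exponent_le hn1 (by norm_num)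
      _ = n := Real.rpow_one _
  have hyMn : yM M n ≤ n := by
    have h1 : (yM M n : ℝ) ≤ n := (CM.F.yM_le hM n).trans hpow1
    exact_mod_cast h1
  -- the set of primes
  set P1 := PK (2 * D) n' ∪ Pr (z + 1) (kz n) with hP1
  have hPKm : ∀ p, p ∈ PK (2 * D) n' ↔ p.Prime ∧ p ≤ z := fun p => mem_PK
  have hPrm : ∀ p, p ∈ Pr (z + 1) (kz n) ↔ p < kz n ∧ p.Prime ∧ z + 1 ≤ p := by
    intro p
    unfold Pr
    rw [Finset.mem_filter, Finset.mem_range]
  have hP1p : ∀ p ∈ P1, p.Prime := by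
    intro p hp
    rcases Finset.mem_union.1 hp with h | h
    · exact ((hPKm p).1 h).1
    · exact ((hPrm p).1 h).2.1
  have hP1n : ∀ p ∈ P1, p ≤ n := by
    intro p hp
    rcases Finset.mem_union.1 hp with h | h
    · have := ((hPKm p).1 h).2
      omega
    · exact ((hPrm p).1 h).1.le.trans hkn
  have hPp : ∀ p ∈ P, p.Prime := fun p hp => (hpar.hP p hp).1
  have hdis : Disjoint (PK (2 * D) n') (Pr (z + 1) (kz n)) := by
    rw [Finset.disjoint_left]
    intro p hp1 hp2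
    have h1 := ((hPKm p).1 hp1).2
    have h2 := ((hPrm p).1 hp2).2.2
    omega
  have hGH := rc_U0_GH F hD hN0 hpar hPu hz2 hP1p
  -- the sieve function
  have hkz1 : (1 : ℝ) ≤ kz n := by exact_mod_cast (by omega : 1 ≤ kz n)
  have hkk : (kz n : ℝ) * kz n < lD n := by
    refine lt_of_le_of_lt ?_ l5
    apply mul_le_mul_of_nonneg_left _ (by linarith)
    exact_mod_cast l2
  have hkD : (kz n : ℝ) ≤ lD n := by nlinarith
  have hlev1 : (1 : ℝ) ≤ (lev (2 * D) n' : ℝ) := by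
    exact_mod_cast hz1.trans (CM.F.z0_le_lev D n')
  have hlev3 : (1 : ℝ) ≤ (lev (2 * D) n' : ℝ) ^ 3 := one_le_pow₀ hlev1
  have hrB : ∀ Ff : (ℕ → ℝ) → ℝ, RepB (PK (2 * D) n')
      (fun T => ∏ p ∈ T, p ≤ lev (2 * D) n' ^ 3) Ff → RepB (PK (2 * D) n')
      (fun T => ∏ p ∈ T, (p : ℝ) ≤ (lev (2 * D) n' : ℝ) ^ 3) Ff := by
    intro Ff h
    refine CM.F.cm_T3_monoB h fun T _ hT => ?_
    beta_reduce at hT ⊢
    have h1 : ((∏ p ∈ T, p : ℕ) : ℝ) ≤ ((lev (2 * D) n' ^ 3 : ℕ) : ℝ) := Nat.cast_le.2 hT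
    push_cast at h1
    exact h1
  have hrep := (hrc (PK (2 * D) n') (z + 1) (kz n) (kz n) (kz n) ((lev (2 * D) n' : ℝ) ^ 3)
    (lD n) Fp Fm (by omega) l1 le_rfl hdis hkD hkk hlev3 (hrB Fp hpre.rp)
    (hrB Fm hpre.rm)).2 le_rfl
  set Ff := F3 Fp (z + 1) (kz n) (lD n) with hFf
  have hRep' : RepC P1 (fun T => ∏ p ∈ T, p ≤ ⌊(n : ℝ) ^ (4974 / 10000 : ℝ)⌋₊) Ff := by
    refine CM.F.cm_T3_mono hrep fun T _ hT => ?_
    beta_reduce at hT ⊢
    apply Nat.le_floor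
    push_cast
    refine hT.trans ?_
    calc (lev (2 * D) n' : ℝ) ^ 3 * lD n ≤ (n : ℝ) ^ (1 / 1000 : ℝ) * (n : ℝ) ^ (273 / 550 : ℝ) :=
          mul_le_mul_of_nonneg_right hpar.hlev (Real.rpow_nonneg hn0.le _)
      _ = (n : ℝ) ^ (1 / 1000 + 273 / 550 : ℝ) := by rw [Real.rpow_add hn0]
      _ ≤ (n : ℝ) ^ (4974 / 10000 : ℝ) := Real.rpow_le_rpow_of_exponent_le hn1 (by norm_num)
  have hW0 : ∀ (S : Finset ℕ) (ρ : ℕ → ℝ), (∀ p, 0 ≤ ρ p ∧ ρ p ≤ 1) → 0 ≤ W ρ S := by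
    intro S ρ hρ
    unfold W
    exact Finset.prod_nonneg fun p _ => by linarith [(hρ p).2]
  have hFW : ∀ ρ : ℕ → ℝ, (∀ p, 0 ≤ ρ p ∧ ρ p ≤ 1) →
      W ρ (PK (2 * D) n') * W ρ (Pr (z + 1) (kz n)) ≤ Ff ρ := by
    intro ρ hρ
    have h1 := hpre.pt ρ (fun p _ => hρ p)
    exact (hpt (PK (2 * D) n') (z + 1) 0 0 (kz n) (lD n) Fp Fm ρ hρ h1.1 h1.2).2
  have hF0 : ∀ ρ : ℕ → ℝ, (∀ p, 0 ≤ ρ p ∧ ρ p ≤ 1) → 0 ≤ Ff ρ := by
    intro ρ hρ
    exact le_trans (mul_nonneg (hW0 _ ρ hρ) (hW0 _ ρ hρ)) (hFW ρ hρ)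
  -- the points
  set ind : ℤ → ℕ → ℝ := fun x p => if rc_U0_Q F n z p x then (1 : ℝ) else 0 with hind
  have hind01 : ∀ x p, 0 ≤ ind x p ∧ ind x p ≤ 1 := by
    intro x p
    simp only [hind]
    split_ifs <;> norm_num
  set x0 : ℤ := ⌈(F.xi - 2 * F.hw) * n⌉ with hx0
  set X : ℕ := ⌊4 * F.hw * n⌋₊ + 1 with hX
  set S := (Ioo 0 n).filter (fun x : ℕ => F.Rg n z x ∧ Near F n x ∧
      Rou (kz n) (F.L n none x).toNat) with hS
  have hone : ∀ x ∈ S, 1 ≤ Ff (ind (x : ℤ)) := by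
    intro x hx
    rw [hS, Finset.mem_filter] at hx
    obtain ⟨-, hR, -, hRo⟩ := hx
    have hLp : 0 < F.L n none x := by
      by_contra hc
      rw [not_lt] at hc
      have h1 : (F.L n none x).toNat = 0 := Int.toNat_of_nonpos hc
      rw [h1] at hRo
      have := hRo 2 Nat.prime_two (dvd_zero 2)
      omega
    refine le_trans (le_of_eq ?_) (hFW (ind x) (hind01 x))
    have e1 : W (ind x) (PK (2 * D) n') = 1 := by
      rw [hind]
      simp only
      rw [W_ind, if_pos]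
      intro p hp hq
      obtain ⟨h1, h2⟩ := (hPKm p).1 hp
      unfold rc_U0_Q at hq
      rw [if_pos h2] at hq
      exact hR p h1 h2 hq
    have e2 : W (ind x) (Pr (z + 1) (kz n)) = 1 := by
      rw [hind]
      simp only
      rw [W_ind, if_pos]
      intro p hp hq
      obtain ⟨h1, h2, h3⟩ := (hPrm p).1 hp
      unfold rc_U0_Q at hq
      rw [if_neg (by omega)] at hq
      have h4 : p ∣ (F.L n none x).toNat := by
        have h5 : ((F.L n none x).toNat : ℤ) = F.L n none x := Int.toNat_of_nonneg hLp.le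
        rw [← h5] at hq
        exact_mod_cast hq
      have := hRo p h2 h4
      omega
    rw [e1, e2, one_mul]
  have hnear : ∀ x ∈ S, x0 ≤ (x : ℤ) ∧ ((x : ℤ) - x0).toNat < X := by
    intro x hx
    rw [hS, Finset.mem_filter] at hx
    obtain ⟨-, -, hN, -⟩ := hx
    unfold Near at hN
    rw [abs_le] at hN
    obtain ⟨h1, h2⟩ := hN
    have h3 : x0 ≤ (x : ℤ) := by
      rw [hx0, Int.ceil_le]
      linarith
    refine ⟨h3, ?_⟩
    rw [hX, Nat.lt_add_one_iff]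
    apply Nat.le_floor
    have h4 : ((((x : ℤ) - x0).toNat : ℕ) : ℝ) = (x : ℝ) - x0 := by
      have h5 : ((((x : ℤ) - x0).toNat : ℕ) : ℤ) = (x : ℤ) - x0 :=
        Int.toNat_of_nonneg (by omega)
      have h6 : ((((((x : ℤ) - x0).toNat : ℕ) : ℤ) : ℤ) : ℝ) = (((x : ℤ) - x0 : ℤ) : ℝ) := by
        rw [h5]
      push_cast at h6
      exact h6
    rw [h4]
    have h7 : (F.xi - 2 * F.hw) * n ≤ (x0 : ℝ) := Int.le_ceil _
    have h8 : ((x : ℤ) : ℝ) = (x : ℝ) := by push_cast; rfl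
    rw [h8] at h2
    linarith
  have hsum : ∑ x ∈ S, ZI (DF F n P) g x ^ 2 ≤
      ∑ i ∈ range X, Ff (ind (x0 + i)) * ZI (DF F n P) g (x0 + i) ^ 2 := by
    set e : ℕ → ℕ := fun x => ((x : ℤ) - x0).toNat with he
    have hee : ∀ x ∈ S, x0 + ((e x : ℕ) : ℤ) = (x : ℤ) := by
      intro x hx
      have h1 := (hnear x hx).1
      simp only [he]
      rw [Int.toNat_of_nonneg (by omega)]
      ring
    calc ∑ x ∈ S, ZI (DF F n P) g x ^ 2 ≤
          ∑ x ∈ S, Ff (ind (x : ℤ)) * ZI (DF F n P) g x ^ 2 :=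
          Finset.sum_le_sum fun x hx => le_mul_of_one_le_left (sq_nonneg _) (hone x hx)
      _ = ∑ x ∈ S, Ff (ind (x0 + (e x : ℕ))) * ZI (DF F n P) g (x0 + (e x : ℕ)) ^ 2 :=
          Finset.sum_congr rfl fun x hx => by rw [hee x hx]
      _ = ∑ i ∈ S.image e, Ff (ind (x0 + i)) * ZI (DF F n P) g (x0 + i) ^ 2 := by
          rw [Finset.sum_image]
          intro x hx y hy hxy
          have h1 := hee x hx
          have h2 := hee y hy
          rw [hxy] at h1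
          have h3 : (x : ℤ) = y := h1.symm.trans h2
          exact_mod_cast h3
      _ ≤ _ := by
          apply Finset.sum_le_sum_of_subset_of_nonneg
          · intro i hi
            obtain ⟨x, hx, rfl⟩ := Finset.mem_image.1 hi
            exact Finset.mem_range.2 (hnear x hx).2
          · intro i _ _
            exact mul_nonneg (hF0 _ (hind01 _)) (sq_nonneg _)
  -- the densities
  set ρ := rc_U0_rho F n z with hρ
  have hρ01 : ∀ p, 0 ≤ ρ p ∧ ρ p ≤ 1 := fun p => rc_U0_rho01 F hz2 p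
  have hρ1 : ∀ p, p ≤ z → ρ p = (om (fun p y => (p : ℤ) ∣ (F.G n).eval y) p : ℝ) / p := by
    intro p hp
    simp only [hρ]
    unfold rc_U0_rho
    rw [if_pos hp]
  have hρ2 : ∀ p, z < p → ρ p = 1 / ((p : ℝ) - 1) := by
    intro p hp
    simp only [hρ]
    unfold rc_U0_rho gd
    rw [if_neg (not_le.2 hp)]
  have hom1 : ∀ p, p ≤ z → (om (rc_U0_Q F n z) p : ℝ) / p = ρ p := by
    intro p hp
    rw [hρ1 p hp, rc_U0_om1 F hp]
  have hom2 : ∀ p, p.Prime → z < p → (om (rc_U0_Q F n z) p : ℝ) / p = 1 / p := by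
    intro p hpp hp
    rw [rc_U0_om2 F hN0 hpp hp (hPu none p hpp hp), Nat.cast_one]
  have hp1 : ∀ p ∈ P1, (1 : ℝ) ≤ (p : ℝ) - 1 := by
    intro p hp
    have : (2 : ℝ) ≤ p := by exact_mod_cast (hP1p p hp).two_le
    linarith
  have h1 : ∀ p ∈ P1, 0 ≤ ρ p ∧ (om (rc_U0_Q F n z) p : ℝ) / p ≤ ρ p := by
    intro p hp
    refine ⟨(hρ01 p).1, ?_⟩
    rcases le_or_gt p z with h | h
    · rw [hom1 p h]
    · rw [hom2 p (hP1p p hp) h, hρ2 p h]
      have := hp1 p hp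
      exact one_div_le_one_div_of_le (by linarith) (by linarith)
  have h2 : ∑ p ∈ P1, (ρ p - (om (rc_U0_Q F n z) p : ℝ) / p) ≤ 1 / 2 * (2 / z) := by
    rw [hP1, Finset.sum_union hdis]
    have e1 : ∑ p ∈ PK (2 * D) n', (ρ p - (om (rc_U0_Q F n z) p : ℝ) / p) = 0 := by
      apply Finset.sum_eq_zero
      intro p hp
      rw [hom1 p ((hPKm p).1 hp).2, sub_self]
    have e2 : ∑ p ∈ Pr (z + 1) (kz n), (ρ p - (om (rc_U0_Q F n z) p : ℝ) / p) =
        ∑ p ∈ Pr (z + 1) (kz n), (1 / ((p : ℝ) - 1) - 1 / p) := by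
      apply Finset.sum_congr rfl
      intro p hp
      obtain ⟨-, h5, h6⟩ := (hPrm p).1 hp
      rw [hom2 p h5 (by omega), hρ2 p (by omega)]
    have e3 : ∑ p ∈ Pr (z + 1) (kz n), (1 / ((p : ℝ) - 1) - 1 / p) ≤
        ∑ p ∈ Ico (z + 1) (kz n), (1 / ((p : ℝ) - 1) - 1 / p) := by
      apply Finset.sum_le_sum_of_subset_of_nonneg
      · intro p hp
        obtain ⟨h4, -, h6⟩ := (hPrm p).1 hp
        exact Finset.mem_Ico.2 ⟨h6, h4⟩
      · intro p hp _
        have h5 : (3 : ℝ) ≤ p := by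
          have := (Finset.mem_Ico.1 hp).1
          exact_mod_cast (by omega : 3 ≤ p)
        have := one_div_le_one_div_of_le (show (0 : ℝ) < (p : ℝ) - 1 by linarith)
          (show (p : ℝ) - 1 ≤ p by linarith)
        linarith
    rw [rc_U0_tel z (kz n) l1] at e3
    have e4 : 0 ≤ 1 / ((kz n : ℝ) - 1) := div_nonneg zero_le_one (by linarith)
    have e5 : (1 : ℝ) / 2 * (2 / z) = 1 / z := by ring
    rw [e1, e2, zero_add, e5]
    linarith
  have h4 : ∀ p ∈ P1, z < p → ρ p ≤ 2 / z := by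
    intro p _ hpz
    rw [hρ2 p hpz]
    have h5 : (z : ℝ) ≤ (p : ℝ) - 1 := by
      have : (z : ℝ) + 1 ≤ p := by exact_mod_cast hpz
      linarith
    calc 1 / ((p : ℝ) - 1) ≤ 1 / z := one_div_le_one_div_of_le hzR h5
      _ ≤ 2 / z := by
        apply div_le_div_of_nonneg_right _ hzR.le
        norm_num
  have hY : ((yM M n * yM M n : ℕ) : ℝ) ≤ 2 ^ (2 * Real.log n) := by
    have h5 := CM.F.yM_le hM n
    have h6 : ((yM M n * yM M n : ℕ) : ℝ) ≤ (n : ℝ) ^ (1 / 1000 : ℝ) * (n : ℝ) ^ (1 / 1000 : ℝ) := by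
      push_cast
      exact mul_le_mul h5 h5 (Nat.cast_nonneg _) (Real.rpow_nonneg hn0.le _)
    refine h6.trans ?_
    rw [← Real.rpow_add hn0]
    calc (n : ℝ) ^ (1 / 1000 + 1 / 1000 : ℝ) ≤ (n : ℝ) ^ (1 : ℝ) :=
          Real.rpow_le_rpow_of_exponent_le hn1 (by norm_num)
      _ = Real.exp (Real.log n * 1) := by rw [Real.rpow_def_of_pos hn0]
      _ ≤ Real.exp (Real.log 2 * (2 * Real.log n)) := by
          apply Real.exp_le_exp.2
          have := Real.log_two_gt_d9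
          nlinarith
      _ = 2 ^ (2 * Real.log n) := by rw [Real.rpow_def_of_pos (by norm_num : (0 : ℝ) < 2)]
  have key := hgen ι P P1 (DF F n P) (rc_U0_Q F n z) D z hGH
    ⌊(n : ℝ) ^ (4974 / 10000 : ℝ)⌋₊ Ff hRep' ρ (1 / 2) (by norm_num) h1 h2 h4 x0 X g B
    (2 * Real.log n) (yM M n) hg.bd hg.sup hY (by linarith)
  have hbpk := hbp ι P z hz2 (fun p hp => (hpar.hP p hp).2.1) g B (2 * Real.log n) (yM M n)
    hg.bd hg.sup hY (by linarith)
  rw [← hL] at key hbpk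
  set b' := bil (fun j : PJf P => 1 / ((j : ℕ) : ℝ)) g g with hb'
  set pj := ∏ j : PJf P, (1 + (3 * Fintype.card ι : ℝ) * (1 / (((j : ℕ) : ℝ) - 1))) with hpj
  have hb : 0 ≤ qf g := by
    apply CM.F.cm_S0_qf g
    intro p hp
    have := (hpar.hP p hp).2.1
    omega
  -- the products
  have hdens := dens_poly (F.G n) D (2 * D) (F.hdeg n hN0) (by omega) (F.hloc n hN0)
  have hpq1 : ∏ p ∈ P1, (1 + ρ p) ≤ C1 * L ^ (2 * D) := by
    have e3 : ∏ p ∈ P1, (1 + ρ p) ≤ ∏ p ∈ P1, (1 + ((2 * D : ℕ) : ℝ) / ((p : ℝ) - 1)) := by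
      apply Finset.prod_le_prod
      · intro p hp
        linarith [(h1 p hp).1]
      · intro p hp
        have h5 := hp1 p hp
        have hD1 : (1 : ℝ) ≤ D := by exact_mod_cast hD
        rcases le_or_gt p z with hpz | hpz
        · have h6 := hdens.le p (hP1p p hp)
          rw [hρ1 p hpz]
          have h7 : ((2 * D : ℕ) : ℝ) / (p : ℝ) ≤ ((2 * D : ℕ) : ℝ) / ((p : ℝ) - 1) :=
            div_le_div_of_nonneg_left (by positivity) (by linarith) (by linarith)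
          linarith
        · rw [hρ2 p hpz]
          have h7 : 1 / ((p : ℝ) - 1) ≤ ((2 * D : ℕ) : ℝ) / ((p : ℝ) - 1) := by
            apply div_le_div_of_nonneg_right _ (by linarith)
            push_cast
            linarith
          linarith
    refine e3.trans (le_trans ?_ (hpr1 n hn3))
    apply CM.F.prod_le_of_subset
    · intro p hp
      rw [Finset.mem_filter, Finset.mem_Icc]
      exact ⟨⟨(hP1p p hp).one_le, hP1n p hp⟩, hP1p p hp⟩
    · intro p hp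
      have h5 : (2 : ℝ) ≤ p := by exact_mod_cast (Finset.mem_filter.1 hp).2.two_le
      have h6 : 0 ≤ ((2 * D : ℕ) : ℝ) / ((p : ℝ) - 1) := div_nonneg (by positivity) (by linarith)
      linarith
  have hpq0 : 0 ≤ ∏ p ∈ P1, (1 + ρ p) := Finset.prod_nonneg fun p hp => by
    linarith [(h1 p hp).1]
  have hpj1 : pj ≤ C2 * L ^ (3 * Fintype.card ι) := by
    have e5 : pj = ∏ p ∈ P, (1 + ((3 * Fintype.card ι : ℕ) : ℝ) / ((p : ℝ) - 1)) := by
      rw [hpj,
        ← Finset.prod_coe_sort P (fun p => 1 + ((3 * Fintype.card ι : ℕ) : ℝ) / ((p : ℝ) - 1))]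
      apply Finset.prod_congr rfl
      intro j _
      push_cast
      ring
    rw [e5]
    refine le_trans ?_ (hpr2 n hn3)
    apply CM.F.prod_le_of_subset
    · intro p hp
      rw [Finset.mem_filter, Finset.mem_Icc]
      exact ⟨⟨(hPp p hp).one_le, (hpar.hP p hp).2.2.trans hyMn⟩, hPp p hp⟩
    · intro p hp
      have h5 : (2 : ℝ) ≤ p := by exact_mod_cast (Finset.mem_filter.1 hp).2.two_le
      have h6 : 0 ≤ ((3 * Fintype.card ι : ℕ) : ℝ) / ((p : ℝ) - 1) :=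
        div_nonneg (by positivity) (by linarith)
      linarith
  have hpj0 : 0 ≤ pj := by
    rw [hpj]
    apply Finset.prod_nonneg
    intro j _
    have h5 : (2 : ℝ) ≤ ((j : ℕ) : ℝ) := by exact_mod_cast (hPp j.1 j.2).two_le
    have h6 : 0 ≤ 1 / (((j : ℕ) : ℝ) - 1) := div_nonneg zero_le_one (by linarith)
    positivity
  -- the main term
  set V0 := F.V n n' with hV0
  set V1 := V (z + 1) (kz n) with hV1
  have hVdef : V0 = W ρ (PK (2 * D) n') := by
    rw [hV0]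
    unfold Fam.V W
    apply Finset.prod_congr rfl
    intro p hp
    rw [hρ1 p ((hPKm p).1 hp).2]
  have hV00 : 0 ≤ V0 := by
    rw [hVdef]
    exact hW0 _ ρ hρ01
  have hV01 : V0 ≤ 1 := by
    rw [hVdef]
    unfold W
    exact Finset.prod_le_one (fun p _ => by linarith [(hρ01 p).2])
      (fun p _ => by linarith [(hρ01 p).1])
  have hV10 : 0 ≤ V1 := CM.F.cm_T3_V_nonneg _ _
  have hV11 : V1 ≤ 1 := by
    rw [hV1]
    unfold V
    apply Finset.prod_le_one
    · intro p hp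
      obtain ⟨-, -, h6⟩ := (hPrm p).1 hp
      have h7 := (hρ01 p).2
      rw [hρ2 p (by omega)] at h7
      unfold gd
      linarith
    · intro p hp
      obtain ⟨-, -, h6⟩ := (hPrm p).1 hp
      have h7 := (hρ01 p).1
      rw [hρ2 p (by omega)] at h7
      unfold gd
      linarith
  have hFp1 : V0 ≤ Fp ρ := by
    rw [hVdef]
    exact (hpre.pt ρ (fun p _ => hρ01 p)).2
  have hFp2 : Fp ρ ≤ (1 + 1 / 1000) * V0 := by
    have h5 := (hpre.mt _ hdens).1
    have h6 : ∀ p ∈ PK (2 * D) n', ρ p =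
        (fun p => (om (fun p y => (p : ℤ) ∣ (F.G n).eval y) p : ℝ) / p) p :=
      fun p hp => hρ1 p ((hPKm p).1 hp).2
    rw [CM.F.cm_S0_congr hpre.rp h6, hVdef, CM.F.cm_S0_W_congr h6]
    exact h5
  have hmain : Ff ρ ≤ 101 / 100 * (V0 * V1) := by
    apply hmn z hpar.hzB hzl Fp ρ V0 hV00 hFp1 hFp2
    intro p hp
    rw [hρ2 p hp]
    rfl
  have hFρ0 : 0 ≤ Ff ρ := hF0 ρ hρ01
  have hX1 : (X : ℝ) ≤ 401 / 100 * (F.hw * n) := by
    rw [hX]
    push_cast
    have h5 : (⌊4 * F.hw * n⌋₊ : ℝ) ≤ 4 * F.hw * n := Nat.floor_le (by positivity)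
    linarith
  have hX0 : (0 : ℝ) ≤ X := Nat.cast_nonneg _
  have hhn : 0 ≤ F.hw * n := by positivity
  have hXn : (X : ℝ) ≤ n := by nlinarith
  have hXnL : (X : ℝ) ≤ n * L := by nlinarith
  set ebp := (B : ℝ) ^ 2 * (2 / z * (2 * L) * pj) with hebp
  have hebp0 : 0 ≤ ebp := by positivity
  have hM1 : X * Ff ρ * b' ≤ 5 * (F.hw * n * V0) * (V1 * qf g) + 5 * (F.hw * n) * ebp := by
    have h5 : b' ≤ qf g + ebp := by
      have := (abs_le.1 hbpk).1
      unfold qf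
      linarith
    have h6 : 0 ≤ X * Ff ρ := mul_nonneg hX0 hFρ0
    have h7 : X * Ff ρ ≤ (401 / 100 * (F.hw * n)) * (101 / 100 * (V0 * V1)) :=
      mul_le_mul hX1 hmain hFρ0 (by positivity)
    have h8 : 0 ≤ V0 * V1 := mul_nonneg hV00 hV10
    have h9 : V0 * V1 ≤ 1 := by nlinarith
    calc X * Ff ρ * b' ≤ X * Ff ρ * (qf g + ebp) := mul_le_mul_of_nonneg_left h5 h6
      _ ≤ (401 / 100 * (F.hw * n)) * (101 / 100 * (V0 * V1)) * (qf g + ebp) :=
          mul_le_mul_of_nonneg_right h7 (by linarith)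
      _ = 40501 / 10000 * (F.hw * n * V0) * (V1 * qf g) +
          40501 / 10000 * (F.hw * n) * (V0 * V1) * ebp := by ring
      _ ≤ _ := by
          have h10 : 0 ≤ (F.hw * n * V0) * (V1 * qf g) := by positivity
          have h11 : (F.hw * n) * (V0 * V1) * ebp ≤ (F.hw * n) * 1 * ebp := by
            apply mul_le_mul_of_nonneg_right _ hebp0
            exact mul_le_mul_of_nonneg_left h9 hhn
          have h12 : 0 ≤ (F.hw * n) * ebp := by positivity
          linarith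
  -- the error terms
  have hLA : 0 < L ^ A := by positivity
  have hnA : 0 ≤ (n : ℝ) / L ^ A := by positivity
  have hhalf : 1 / 2 * ((n : ℝ) / L ^ (A + 1)) ≤ 1 / 4 * (n / L ^ A) := by
    rw [pow_succ, ← div_div, div_eq_mul_inv ((n : ℝ) / L ^ A) L]
    have h5 : L⁻¹ ≤ 1 / 2 := by
      rw [inv_eq_one_div]
      exact one_div_le_one_div_of_le (by norm_num) hL2
    have h6 := mul_le_mul_of_nonneg_left h5 hnA
    linarith
  have hE3 : 5 * (F.hw * n) * ebp ≤ 1 / 4 * (n / L ^ A) := by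
    refine le_trans ?_ ((htail2 z hpar.hzB).trans hhalf)
    rw [hebp, pow_zero, mul_one, mul_one]
    have h5 : 5 * (F.hw * n) ≤ n * L := by nlinarith
    have h6 : 2 / (z : ℝ) * (2 * L) * pj ≤
        (3 * (2 / z)) * (((B0 : ℝ) + 1 + 2 * L) * (C2 * L ^ (3 * Fintype.card ι))) := by
      rw [mul_assoc]
      apply mul_le_mul _ _ (by positivity) (by positivity)
      · have : 0 ≤ 2 / (z : ℝ) := by positivity
        linarith
      · apply mul_le_mul _ hpj1 hpj0 (by positivity)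
        have : (0 : ℝ) ≤ B0 := Nat.cast_nonneg _
        linarith
    calc 5 * (F.hw * n) * ((B : ℝ) ^ 2 * (2 / z * (2 * L) * pj)) =
          (B : ℝ) ^ 2 * ((5 * (F.hw * n)) * (2 / z * (2 * L) * pj)) := by ring
      _ ≤ (B : ℝ) ^ 2 * ((n * L) * ((3 * (2 / z)) * (((B0 : ℝ) + 1 + 2 * L) *
            (C2 * L ^ (3 * Fintype.card ι))))) := by
          apply mul_le_mul_of_nonneg_left _ (sq_nonneg _)
          exact mul_le_mul h5 h6 (by positivity) (by positivity)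
      _ = _ := by ring
  have hE2 : (B : ℝ) ^ 2 * (X * (3 * (2 / z) * ∏ p ∈ P1, (1 + ρ p)) * ((1 / 2 + 2 * L) * pj)) ≤
      1 / 4 * (n / L ^ A) := by
    refine le_trans ?_ ((htail1 z hpar.hzB).trans hhalf)
    apply mul_le_mul_of_nonneg_left _ (sq_nonneg _)
    apply mul_le_mul
    · apply mul_le_mul hXnL _ (mul_nonneg (by positivity) hpq0) (by positivity)
      exact mul_le_mul_of_nonneg_left hpq1 (by positivity)
    · apply mul_le_mul _ hpj1 hpj0 (by positivity)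
      have : (0 : ℝ) ≤ B0 := Nat.cast_nonneg _
      linarith
    · exact mul_nonneg (by linarith) hpj0
    · positivity
  have hE1 := he1 (yM M n * yM M n * ⌊(n : ℝ) ^ (4974 / 10000 : ℝ)⌋₊) (by
    have h5 := CM.F.yM_le hM n
    have h6 : (⌊(n : ℝ) ^ (4974 / 10000 : ℝ)⌋₊ : ℝ) ≤ (n : ℝ) ^ (4974 / 10000 : ℝ) :=
      Nat.floor_le (Real.rpow_nonneg hn0.le _)
    push_cast
    calc (yM M n : ℝ) * yM M n * ⌊(n : ℝ) ^ (4974 / 10000 : ℝ)⌋₊ ≤
          (n : ℝ) ^ (1 / 1000 : ℝ) * (n : ℝ) ^ (1 / 1000 : ℝ) * (n : ℝ) ^ (4974 / 10000 : ℝ) := by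
          apply mul_le_mul _ h6 (Nat.cast_nonneg _) (by positivity)
          exact mul_le_mul h5 h5 (Nat.cast_nonneg _) (Real.rpow_nonneg hn0.le _)
      _ = (n : ℝ) ^ (1 / 1000 + 1 / 1000 + 4974 / 10000 : ℝ) := by
          rw [Real.rpow_add hn0, Real.rpow_add hn0]
      _ ≤ (n : ℝ) ^ (1 / 2 : ℝ) :=
          Real.rpow_le_rpow_of_exponent_le hn1 (by norm_num))
  have key2 := (abs_le.1 key).2
  rw [mul_add] at key2
  have hfin : ∑ x ∈ S, ZI (DF F n P) g x ^ 2 ≤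
      5 * (F.hw * n * V0) * (V1 * qf g) + n / L ^ A := by
    have h5 : ∑ i ∈ range X, Ff (ind (x0 + i)) * ZI (DF F n P) g (x0 + i) ^ 2 -
        X * Ff ρ * b' ≤ 1 / 4 * (n / L ^ A) + 1 / 4 * (n / L ^ A) := by
      refine le_trans key2 (add_le_add hE1 hE2)
    linarith
  exact hfin

end Pool.Agent.RC
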