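import Pool.Agent.Lib.MP_bca3e5_nt.RC.Defs
import Pool.Agent.Lib.MP_0da313_nt.Poly

set_option autoImplicit false

/-!
Project RC, proof of `S_cor`.
-/

namespace Pool.Agent.RC

open Finset Filter Polynomial
open ArithmeticFunction (cardFactors)
open Pool.Agent.Lib.MP_0da313_nt (Admissible lineRestrict val singV nroots eval_lineRestrict
  natDegree_lineRestrict_le card_roots_mod_le card_roots_mod_lt)

private lemma rc_cor_irr_lin (a : ℤ) (ha : a ≠ 0) : Irreducible (C a * X + 1 : ℤ[X]) := by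
  have hdeg : (C a * X + 1 : ℤ[X]).natDegree = 1 := by
    have h1 : (C a * X + 1 : ℤ[X]) = C a * X + C 1 := by simp
    rw [h1]
    exact natDegree_linear ha
  have key : ∀ f g : ℤ[X], (C a * X + 1 : ℤ[X]) = f * g → f.natDegree = 0 → IsUnit f := by
    intro f g hfg hf
    rw [eq_C_of_natDegree_eq_zero hf] at hfg ⊢
    have h1 := congrArg (fun q : ℤ[X] => q.coeff 0) hfg
    simp only [coeff_add, coeff_C_mul, coeff_X_zero, mul_zero, coeff_one_zero, zero_add] at h1
    exact (IsUnit.of_mul_eq_one _ h1.symm).map C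
  refine ⟨fun hu => ?_, fun f g hfg => ?_⟩
  · have := natDegree_eq_zero_of_isUnit hu
    omega
  · have hne : (C a * X + 1 : ℤ[X]) ≠ 0 := fun h0 => by
      rw [h0, natDegree_zero] at hdeg
      omega
    have hf0 : f ≠ 0 := fun h0 => hne (by rw [hfg, h0, zero_mul])
    have hg0 : g ≠ 0 := fun h0 => hne (by rw [hfg, h0, mul_zero])
    have h1 := hdeg
    rw [hfg, natDegree_mul hf0 hg0] at h1
    rcases Nat.eq_zero_or_pos f.natDegree with h2 | h2
    · exact Or.inl (key f g hfg h2)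
    · exact Or.inr (key g f (by rw [hfg, mul_comm]) (by omega))

/-- the family -/
private noncomputable def rc_cor_ff {s : ℕ} (a : Fin s → ℕ) : Fin (s + 1) → MvPolynomial (Fin 2) ℤ :=
  Fin.cons (MvPolynomial.X 0) (fun j => MvPolynomial.C (a j : ℤ) * MvPolynomial.X 0 + 1)

private lemma rc_cor_ff_zero {s : ℕ} (a : Fin s → ℕ) : rc_cor_ff a 0 = MvPolynomial.X 0 := rfl

private lemma rc_cor_ff_succ {s : ℕ} (a : Fin s → ℕ) (j : Fin s) :
    rc_cor_ff a j.succ = MvPolynomial.C (a j : ℤ) * MvPolynomial.X 0 + 1 := rfl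

private lemma rc_cor_val_zero {s : ℕ} (a : Fin s → ℕ) (x y : ℤ) : val (rc_cor_ff a 0) x y = x := by
  rw [rc_cor_ff_zero]
  unfold Pool.Agent.Lib.MP_0da313_nt.val
  simp

private lemma rc_cor_val_succ {s : ℕ} (a : Fin s → ℕ) (j : Fin s) (x y : ℤ) :
    val (rc_cor_ff a j.succ) x y = a j * x + 1 := by
  rw [rc_cor_ff_succ]
  unfold Pool.Agent.Lib.MP_0da313_nt.val
  simp

private lemma rc_cor_lr_zero {s : ℕ} (a : Fin s → ℕ) (n : ℕ) : lineRestrict (rc_cor_ff a 0) n = X := by
  rw [rc_cor_ff_zero, lineRestrict]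
  simp

private lemma rc_cor_lr_succ {s : ℕ} (a : Fin s → ℕ) (j : Fin s) (n : ℕ) :
    lineRestrict (rc_cor_ff a j.succ) n = C (a j : ℤ) * X + 1 := by
  rw [rc_cor_ff_succ, lineRestrict]
  simp

private lemma rc_cor_deg_ff {s : ℕ} (a : Fin s → ℕ) (k : Fin (s + 1)) : (rc_cor_ff a k).totalDegree ≤ 1 := by
  refine Fin.cases ?_ (fun j => ?_) k
  · rw [rc_cor_ff_zero]
    exact (MvPolynomial.totalDegree_X _).le
  · rw [rc_cor_ff_succ]
    refine (MvPolynomial.totalDegree_add _ _).trans (max_le ?_ ?_)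
    · refine (MvPolynomial.totalDegree_mul _ _).trans ?_
      rw [MvPolynomial.totalDegree_C, MvPolynomial.totalDegree_X]
    · rw [MvPolynomial.totalDegree_one]
      exact Nat.zero_le _

private lemma rc_cor_ncard_le_card (S : Set ℕ) (n : ℕ) (P : ℕ → Prop) (_ : DecidablePred P)
    (h : ∀ y ∈ S, y < n + 1 ∧ P y) : S.ncard ≤ ((range (n + 1)).filter P).card := by
  refine le_trans (Set.ncard_le_ncard ?_ (Finset.finite_toSet _)) (Set.ncard_coe_finset _).le
  intro y hy
  rw [Finset.mem_coe, mem_filter, mem_range]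
  exact h y hy

theorem p_cor : S_cor := by
  classical
  rintro ⟨c0, hc0, hF⟩ hsv
  refine ⟨c0, hc0, fun s hs => ?_⟩
  obtain ⟨B, c, hc, hF⟩ := hF (s + 1) 1 (by omega) le_rfl
  obtain ⟨c', hc', hsv⟩ := hsv (s + 1)
  refine ⟨B, c * c' / 2, by positivity, fun A hA hApos hadm A' hA' hA'ne => ?_⟩
  let e := A.equivFinOfCardEq hA
  let a : Fin s → ℕ := fun j => (e.symm j : ℕ)
  have hamem : ∀ j, a j ∈ A := fun j => (e.symm j).2
  have hainj : Function.Injective a := fun i j h => e.symm.injective (Subtype.ext h)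
  have hasurj : ∀ b ∈ A, ∃ j, a j = b := fun b hb => ⟨e ⟨b, hb⟩, by
    change ((e.symm (e ⟨b, hb⟩) : A) : ℕ) = b
    rw [Equiv.symm_apply_apply]⟩
  have hapos : ∀ j, 0 < a j := fun j => hApos _ (hamem j)
  -- no fixed divisor
  have hnofix : ∀ (n p : ℕ), p.Prime → ¬ ∀ x : ℤ, (p : ℤ) ∣ ∏ k, (lineRestrict (rc_cor_ff a k) n).eval x := by
    intro n p hp hall
    refine hadm ⟨p, hp, fun y _ => ?_⟩
    have h1 := hall y
    rw [Fin.prod_univ_succ, rc_cor_lr_zero, eval_X] at h1
    have h2 : ∏ j : Fin s, (lineRestrict (rc_cor_ff a j.succ) n).eval (y : ℤ) =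
        ((∏ b ∈ A, (b * y + 1) : ℕ) : ℤ) := by
      rw [Nat.cast_prod]
      refine Finset.prod_bij (fun j _ => a j) (fun j _ => hamem j) (fun i _ j _ h => hainj h)
        (fun b hb => ?_) (fun j _ => ?_)
      · obtain ⟨j, hj⟩ := hasurj b hb
        exact ⟨j, mem_univ _, hj⟩
      · rw [rc_cor_lr_succ]
        simp
    rw [h2] at h1
    exact_mod_cast h1
  have hadm' : Admissible (rc_cor_ff a) := by
    refine ⟨0, fun n _ => ⟨fun k => ?_, fun p hp => hnofix n p hp⟩⟩
    refine Fin.cases ?_ (fun j => ?_) k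
    · rw [rc_cor_lr_zero]
      exact irreducible_X
    · rw [rc_cor_lr_succ]
      exact rc_cor_irr_lin _ (by exact_mod_cast (hapos j).ne')
  -- the members are different
  have hv : ∀ k, 0 < val (rc_cor_ff a k) 1 0 := by
    intro k
    refine Fin.cases ?_ (fun j => ?_) k
    · rw [rc_cor_val_zero]
      exact one_pos
    · rw [rc_cor_val_succ]
      positivity
  have hvinj : ∀ k l, k ≠ l → val (rc_cor_ff a k) 1 0 ≠ val (rc_cor_ff a l) 1 0 := by
    intro k l
    refine Fin.cases ?_ (fun i => ?_) k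
    · refine Fin.cases ?_ (fun j => ?_) l
      · intro h
        exact absurd rfl h
      · intro _
        rw [rc_cor_val_zero, rc_cor_val_succ]
        have := hapos j
        omega
    · refine Fin.cases ?_ (fun j => ?_) l
      · intro _
        rw [rc_cor_val_zero, rc_cor_val_succ]
        have := hapos i
        omega
      · intro h
        rw [rc_cor_val_succ, rc_cor_val_succ]
        intro h2
        apply h
        congr 1
        apply hainj
        have : (a i : ℤ) = a j := by linarith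
        exact_mod_cast this
  have hdist : ∀ k l, k ≠ l → rc_cor_ff a k ≠ rc_cor_ff a l ∧ rc_cor_ff a k ≠ - rc_cor_ff a l := by
    intro k l hkl
    refine ⟨fun h => hvinj k l hkl (by rw [h]), fun h => ?_⟩
    have h1 := hv k
    have h2 := hv l
    rw [h] at h1
    have h3 : val (- rc_cor_ff a l) 1 0 = - val (rc_cor_ff a l) 1 0 := by
      unfold Pool.Agent.Lib.MP_0da313_nt.val
      rw [map_neg]
    rw [h3] at h1
    linarith
  -- the index set
  let I : Finset (Fin (s + 1)) := (univ.filter (fun j : Fin s => a j ∈ A')).map (Fin.succEmb s)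
  have hcard : ∀ (P : Fin (s + 1) → Prop) (_ : DecidablePred P) (Q : ℕ → Prop)
      (_ : DecidablePred Q), (∀ j, P j.succ ↔ Q (a j)) →
      (I.filter P).card = (A'.filter Q).card := by
    intro P _ Q _ hPQ
    rw [Finset.filter_map, Finset.card_map]
    refine Finset.card_bij (fun j _ => a j) (fun j hj => ?_) (fun i _ j _ h => hainj h)
      (fun b hb => ?_)
    · rw [mem_filter, mem_filter] at hj
      rw [mem_filter]
      exact ⟨hj.1.2, (hPQ j).1 hj.2⟩
    · rw [mem_filter] at hb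
      obtain ⟨j, hj⟩ := hasurj b (hA' hb.1)
      refine ⟨j, ?_, hj⟩
      rw [mem_filter, mem_filter, hj]
      exact ⟨⟨mem_univ _, hb.1⟩, (hPQ j).2 (hj ▸ hb.2)⟩
  have hIcard : I.card = A'.card := by
    have := hcard (fun _ => True) inferInstance (fun _ => True) inferInstance (fun _ => Iff.rfl)
    rwa [Finset.filter_true, Finset.filter_true] at this
  have h0I : (0 : Fin (s + 1)) ∉ I := by
    intro h
    rw [Finset.mem_map] at h
    obtain ⟨j, _, hj⟩ := h
    exact Fin.succ_ne_zero j hj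
  have hIne : I.Nonempty := by
    rw [← Finset.card_pos, hIcard]
    exact Finset.card_pos.2 hA'ne
  obtain ⟨N, hN⟩ := hF (rc_cor_ff a) hadm' (rc_cor_deg_ff a) 0 I h0I hIne (fun k _ => rc_cor_deg_ff a k)
    (fun k _ l _ hkl => hdist k l hkl)
  refine ⟨N + 3, fun x hx => ?_⟩
  set n : ℕ := ⌊x⌋₊ with hn
  have hx0 : (0 : ℝ) ≤ x := le_trans (by positivity) hx
  have hnx : (n : ℝ) ≤ x := Nat.floor_le hx0
  have hxn : x < n + 1 := Nat.lt_floor_add_one x
  have hNn : N ≤ n ∧ 2 ≤ n := by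
    have h1 : (N : ℝ) + 3 < n + 1 := lt_of_le_of_lt hx hxn
    have h2 : N + 3 < n + 1 := by exact_mod_cast h1
    omega
  have h1 := hN n hNn.1
  -- the singular product
  have h2 : c' / (Real.log n) ^ (s + 1) ≤ singV (rc_cor_ff a) n := by
    refine hsv n hNn.2 (fun p => nroots (rc_cor_ff a) n p) (fun p hp => ?_)
    have h3 : nroots (rc_cor_ff a) n p = ((range p).filter (fun r : ℕ =>
        (p : ℤ) ∣ (∏ k, lineRestrict (rc_cor_ff a k) n).eval (r : ℤ))).card := by
      unfold nroots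
      congr 1
      refine Finset.filter_congr fun r _ => ?_
      rw [eval_prod]
      simp only [eval_lineRestrict]
    have h4 : ¬ ∀ x : ℤ, (p : ℤ) ∣ (∏ k, lineRestrict (rc_cor_ff a k) n).eval x := by
      intro h
      apply hnofix n p hp
      intro x
      have := h x
      rwa [eval_prod] at this
    have h5 : (∏ k, lineRestrict (rc_cor_ff a k) n).natDegree ≤ s + 1 := by
      refine (natDegree_prod_le _ _).trans ?_
      calc ∑ k : Fin (s + 1), (lineRestrict (rc_cor_ff a k) n).natDegree ≤ ∑ _k : Fin (s + 1), 1 :=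
            Finset.sum_le_sum fun k _ => natDegree_lineRestrict_le _ _ _ (rc_cor_deg_ff a k)
        _ = s + 1 := by simp
    rw [h3]
    exact ⟨card_roots_mod_le _ p (s + 1) hp h5 h4, card_roots_mod_lt _ p hp h4⟩
  have hn2 : (2 : ℝ) ≤ n := by exact_mod_cast hNn.2
  have hlogn : 0 < Real.log n := Real.log_pos (by linarith)
  have hlog : Real.log n ≤ Real.log x := Real.log_le_log (by linarith) hnx
  have hlogx : 0 < Real.log x := lt_of_lt_of_le hlogn hlog
  have h3 : c' / (Real.log x) ^ (s + 1) ≤ singV (rc_cor_ff a) n := by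
    refine le_trans ?_ h2
    exact div_le_div_of_nonneg_left hc'.le (pow_pos hlogn _) (pow_le_pow_left₀ hlogn.le hlog _)
  have h4 : c * c' / 2 * x / (Real.log x) ^ (s + 1) ≤ c * (n * singV (rc_cor_ff a) n) := by
    have h5 : x / 2 ≤ n := by linarith
    calc c * c' / 2 * x / (Real.log x) ^ (s + 1) = c * (x / 2 * (c' / (Real.log x) ^ (s + 1))) := by
          ring
      _ ≤ c * (n * (c' / (Real.log x) ^ (s + 1))) := by
          refine mul_le_mul_of_nonneg_left (mul_le_mul_of_nonneg_right h5 ?_) hc.le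
          positivity
      _ ≤ c * (n * singV (rc_cor_ff a) n) := by
          refine mul_le_mul_of_nonneg_left (mul_le_mul_of_nonneg_left h3 ?_) hc.le
          positivity
  refine h4.trans (h1.trans (Nat.cast_le.2 (rc_cor_ncard_le_card _ _ _ _ ?_)))
  rintro y ⟨hy0, hyn, ⟨hy1, hy1'⟩, hy2, hy3, hy4⟩
  have hy5 := (hy4 0).1
  rw [rc_cor_val_zero, Int.natAbs_natCast] at hy1
  rw [rc_cor_val_zero, Int.natAbs_natCast] at hy1'
  rw [rc_cor_val_zero] at hy5
  have hval : ∀ j, (val (rc_cor_ff a j.succ) (y : ℤ) ((n : ℤ) - y)).natAbs = a j * y + 1 := by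
    intro j
    rw [rc_cor_val_succ]
    have : (a j : ℤ) * y + 1 = ((a j * y + 1 : ℕ) : ℤ) := by push_cast; ring
    rw [this, Int.natAbs_natCast]
  have hc1 : (I.filter (fun k => (val (rc_cor_ff a k) (y : ℤ) ((n : ℤ) - y)).natAbs.Prime)).card =
      (A'.filter (fun b => (b * y + 1).Prime)).card :=
    hcard (fun k => (Pool.Agent.Lib.MP_0da313_nt.val (rc_cor_ff a k) (y : ℤ)
      ((n : ℤ) - y)).natAbs.Prime) _ (fun b => (b * y + 1).Prime) _
      fun j => by rw [hval]
  rw [hc1, hIcard] at hy2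
  rw [hc1] at hy3
  have hy6 : 1 < y := by
    rw [abs_of_nonneg (by positivity)] at hy5
    exact_mod_cast hy5
  refine ⟨by omega, hy6, hy1, fun p hp => ?_, hy2, hy3, fun b hb => ?_⟩
  · have hp' := Nat.mem_primeFactors.1 hp
    have h7 := hy1' p hp'.1 hp'.2.1
    have h8 : (n : ℝ) ≤ (p : ℝ) ^ 11 := by exact_mod_cast h7
    have h9 : (2 : ℝ) ≤ p := by exact_mod_cast hp'.1.two_le
    have h10 : (1 : ℝ) ≤ (p : ℝ) ^ 11 := one_le_pow₀ (by linarith)
    have h11 : (p : ℝ) ^ 12 = p * (p : ℝ) ^ 11 := by ring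
    rw [h11]
    nlinarith
  obtain ⟨j, rfl⟩ := hasurj b hb
  obtain ⟨-, h5, h6⟩ := hy4 j.succ
  rw [hval, mul_one] at h6
  refine ⟨h6, fun p hp => ?_⟩
  have hp' := Nat.mem_primeFactors.1 hp
  have h7 : (p : ℤ) ∣ val (rc_cor_ff a j.succ) (y : ℤ) ((n : ℤ) - y) := by
    rw [← Int.dvd_natAbs, hval]
    exact_mod_cast hp'.2.1
  have h8 := h5 p hp'.1 h7
  have h9 : (n : ℝ) + 1 ≤ (p : ℝ) ^ B := by exact_mod_cast h8
  linarith

end Pool.Agent.RC
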