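import Pool.Agent.Lib.MP_bca3e5_nt.RC.Defs
import Pool.Agent.Lib.MP_0da313_nt.CM.P.fin

set_option autoImplicit false

/-!
[RC fin]: the theorem on the line x + y = n.
-/

namespace Pool.Agent.RC

open Finset Filter Polynomial
open ArithmeticFunction (cardFactors)
open Pool.Agent.BVall (om rhoW PK lev RepB Dens mem_PK)
open Pool.Agent.Lib.MP_0da313_nt (Admissible lineRestrict val singV W small nroots abs_val_le
  eval_lineRestrict)
open Pool.Agent.MT (choose_levS ev_err card_unit_le good_of_rough singV_le level_facts dens_poly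
  W_ge)
open Pool.Agent.CM (Fam kz z0)

/-- The number of indices in a subtype. -/
theorem rc_fin_card {m : ℕ} (I : Finset (Fin m)) (g : {k // k ∈ I} → ℕ) (h : Fin m → ℕ)
    (hgh : ∀ k : {k // k ∈ I}, g k = h k) :
    (univ.filter (fun k : {k // k ∈ I} => (g k).Prime)).card =
      (I.filter (fun k => (h k).Prime)).card := by
  rw [← Finset.card_map (Function.Embedding.subtype (· ∈ I))]
  congr 1
  ext k
  simp only [Finset.mem_map, Finset.mem_filter, Finset.mem_univ, true_and,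
    Function.Embedding.coe_subtype, Subtype.exists, exists_and_right, exists_eq_right, hgh]
  constructor
  · rintro ⟨h1, h2⟩
    exact ⟨h1, h2⟩
  · rintro ⟨h1, h2⟩
    exact ⟨h1, h2⟩

/-- From rough to the power. -/
theorem rc_fin_pow {n p : ℕ} (h : kz n ≤ p) : n ≤ p ^ 11 := by
  have h1 : (n : ℝ) ^ (1 / 11 : ℝ) ≤ kz n := Nat.le_ceil _
  have h2 : (n : ℝ) ^ (1 / 11 : ℝ) ≤ p := h1.trans (by exact_mod_cast h)
  have h3 : ((n : ℝ) ^ (1 / 11 : ℝ)) ^ 11 ≤ (p : ℝ) ^ 11 :=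
    pow_le_pow_left₀ (by positivity) h2 11
  rw [← Real.rpow_natCast, ← Real.rpow_mul (Nat.cast_nonneg n)] at h3
  norm_num at h3
  exact_mod_cast h3

open Classical in
/-- The theorem for fixed `I`. -/
theorem rc_fin_I {c0 : ℝ} (hcnt : ∀ (ι : Type) [Fintype ι] [DecidableEq ι] [Nonempty ι],
  ∃ M : ℕ, 1 ≤ M ∧ ∀ (D B0 : ℕ) (h : ℝ), 1 ≤ D → 1 ≤ B0 → 0 < h → ∃ c : ℝ, 0 < c ∧
  ∀ F : Fam ι D, F.hw = h → ∀ᶠ n : ℕ in atTop, ∀ n' : ℕ, n ≤ z0 D n' ^ B0 →
  (lev (2 * D) n' : ℝ) ^ (3 * M) ≤ (n : ℝ) ^ (1 / 1000 : ℝ) →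
  (2 : ℝ) ^ (2 * D + n') ≤ Real.log n →
  c * (n * F.V n n') ≤ (((Ioo 0 n).filter (fun x : ℕ => F.Rg n (z0 D n') x ∧
    (cardFactors (F.L n none x).natAbs ≤ 2 ∧ Rou (kz n) (F.L n none x).natAbs) ∧
    c0 * Real.log (Fintype.card ι) ≤
      ((univ.filter (fun i : ι => (F.L n (some i) x).natAbs.Prime)).card : ℝ) ∧
    1 ≤ (univ.filter (fun i : ι => (F.L n (some i) x).natAbs.Prime)).card)).card : ℝ))
    (hfam : CM.L.R_fam) (m d : ℕ) (hm : 1 ≤ m) (hd : 1 ≤ d) (I : Finset (Fin m))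
    (hI : I.Nonempty) : ∃ (B : ℕ) (c : ℝ), 0 < c ∧
    ∀ f : Fin m → MvPolynomial (Fin 2) ℤ, Admissible f → (∀ k, (f k).totalDegree ≤ d) →
    ∀ k0 : Fin m, k0 ∉ I →
    (∀ k ∈ insert k0 I, (f k).totalDegree ≤ 1) →
    (∀ k ∈ insert k0 I, ∀ l ∈ insert k0 I, k ≠ l → f k ≠ f l ∧ f k ≠ - f l) →
    ∃ N : ℕ, ∀ n : ℕ, N ≤ n → c * (n * singV f n) ≤
    (Set.ncard {x : ℕ | 0 < x ∧ x < n ∧ (cardFactors (val (f k0) x ((n : ℤ) - x)).natAbs ≤ 2 ∧
        ∀ p : ℕ, p.Prime → p ∣ (val (f k0) x ((n : ℤ) - x)).natAbs → n ≤ p ^ 11) ∧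
      c0 * Real.log I.card ≤
        ((I.filter (fun k => (val (f k) x ((n : ℤ) - x)).natAbs.Prime)).card : ℝ) ∧
      1 ≤ (I.filter (fun k => (val (f k) x ((n : ℤ) - x)).natAbs.Prime)).card ∧
      ∀ k, 1 < |val (f k) x ((n : ℤ) - x)| ∧
      (∀ p : ℕ, p.Prime → (p : ℤ) ∣ val (f k) x ((n : ℤ) - x) → n < p ^ B) ∧
      cardFactors (val (f k) x ((n : ℤ) - x)).natAbs ≤ B * d} : ℝ) := by
  have : Nonempty {k // k ∈ I} := ⟨⟨hI.choose, hI.choose_spec⟩⟩
  obtain ⟨M, hM1, hcI⟩ := hcnt {k // k ∈ I}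
  have hD : 1 ≤ m * d := Nat.mul_pos (by omega) (by omega)
  obtain ⟨B0, hB0⟩ : ∃ B0, B0 = 128000 * (2 * (m * d)) * (3 * M) := ⟨_, rfl⟩
  have hB01 : 1 ≤ B0 := by
    rw [hB0]
    exact Nat.mul_pos (by omega) (by omega)
  obtain ⟨c, hc, hcF⟩ := hcI (m * d) B0 (1 / (4000 * ((m : ℝ) + 2))) hD hB01 (by positivity)
  refine ⟨B0, c / 2, by positivity, ?_⟩
  intro f hf hdeg k0 hk0 hlin hne
  obtain ⟨F, hFh, hFG, hFirr, hFL⟩ := hfam m d hm hd f hf hdeg k0 I hk0 hlin hne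
  obtain ⟨N₀, hN₀⟩ := hf
  have hCf : ∀ k, ∃ C : ℕ, ∀ n : ℕ, 1 ≤ n → ∀ x y : ℤ, |x| ≤ n → |y| ≤ n →
      |val (f k) x y| ≤ C * (n : ℤ) ^ d := fun k => abs_val_le (f k) d (hdeg k)
  choose Cf hCf using hCf
  set c1 : ℝ := ∏ p ∈ small (2 * (m * d)), (1 / (p : ℝ)) with hc1
  have hc1pos : 0 < c1 := by
    apply Finset.prod_pos
    intro p hp
    have hpp : p.Prime := (Finset.mem_filter.mp hp).2
    have : (0 : ℝ) < p := by exact_mod_cast hpp.pos
    positivity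
  have hcast : Tendsto (fun n : ℕ => (n : ℝ)) atTop atTop := tendsto_natCast_atTop_atTop
  have ev1 := hcast.eventually (choose_levS (2 * (m * d)) (3 * M) (by omega) (by omega)
    ((∑ k, Cf k) + 2))
  have hmd0 : (0 : ℝ) < 2 * ((m * d : ℕ) : ℝ) := by
    have : (0 : ℝ) < ((m * d : ℕ) : ℝ) := by exact_mod_cast hD
    positivity
  have ev2 := hcast.eventually (ev_err (s := 0) (show 0 < c / 2 * c1 by positivity)
    hmd0 (8 * (m * d)) (by norm_num))
  obtain ⟨N₂, hN₂⟩ := eventually_atTop.1 (ev1.and (ev2.and (hcF F hFh)))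
  refine ⟨N₀ + F.N0 + N₂ + 100000, fun n hn => ?_⟩
  obtain ⟨⟨n', hl1, hl2, hl3, hl4⟩, h2, h3⟩ := hN₂ n (by omega)
  obtain ⟨hirr, hloc⟩ := hN₀ n (by omega)
  have hn5 : (100000 : ℝ) ≤ n := by exact_mod_cast (show 100000 ≤ n by omega)
  have hn0 : (0 : ℝ) < n := by linarith only [hn5]
  have hzB : n ≤ z0 (m * d) n' ^ B0 := by
    unfold z0
    rw [hB0]
    exact_mod_cast hl2
  have hmain := h3 n' hzB hl1 hl3
  have hVge := CM.F.cm_fin_V F hD (by omega : F.N0 ≤ n) hl3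
  rw [← hc1] at hVge
  have hsing := CM.F.cm_fin_sing F f (hFG n (by omega)) hloc hn5 hl3
  set U := (Ioo 0 n).filter (fun x : ℕ => ∃ k, (lineRestrict (f k) n).eval (x : ℤ) ^ 2 - 1 = 0)
    with hU
  have hUc : U.card ≤ 2 * (m * d) := by
    rw [hU]
    convert card_unit_le f hdeg hirr (Ioo 0 n)
  set Gd := (Ioo 0 n).filter (fun x : ℕ => F.Rg n (z0 (m * d) n') x ∧
    (cardFactors (F.L n none x).natAbs ≤ 2 ∧ Rou (kz n) (F.L n none x).natAbs) ∧
    c0 * Real.log (Fintype.card {k // k ∈ I}) ≤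
      ((univ.filter (fun i : {k // k ∈ I} => (F.L n (some i) x).natAbs.Prime)).card : ℝ) ∧
    1 ≤ (univ.filter (fun i : {k // k ∈ I} => (F.L n (some i) x).natAbs.Prime)).card) with hGd
  set good := (Ioo 0 n).filter (fun x : ℕ => (cardFactors (val (f k0) x ((n : ℤ) - x)).natAbs ≤ 2 ∧
        ∀ p : ℕ, p.Prime → p ∣ (val (f k0) x ((n : ℤ) - x)).natAbs → n ≤ p ^ 11) ∧
      c0 * Real.log I.card ≤
        ((I.filter (fun k => (val (f k) x ((n : ℤ) - x)).natAbs.Prime)).card : ℝ) ∧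
      1 ≤ (I.filter (fun k => (val (f k) x ((n : ℤ) - x)).natAbs.Prime)).card ∧
      ∀ k, 1 < |val (f k) x ((n : ℤ) - x)| ∧
      (∀ p : ℕ, p.Prime → (p : ℤ) ∣ val (f k) x ((n : ℤ) - x) → n < p ^ B0) ∧
      cardFactors (val (f k) x ((n : ℤ) - x)).natAbs ≤ B0 * d) with hgood
  have hGsub : Gd ⊆ good ∪ U := by
    intro x hx
    rw [hGd, Finset.mem_filter] at hx
    obtain ⟨hxI, hxr, hxp, hxc, hxc1⟩ := hx
    have hxI' := Finset.mem_Ioo.1 hxI
    by_cases hHx : ∃ k, (lineRestrict (f k) n).eval (x : ℤ) ^ 2 - 1 = 0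
    · exact Finset.mem_union_right _ (Finset.mem_filter.2 ⟨hxI, hHx⟩)
    apply Finset.mem_union_left
    rw [hgood, Finset.mem_filter]
    have e0 := hFL n (by omega) none (x : ℤ)
    rw [show CM.L.ix k0 (none : Option {k // k ∈ I}) = k0 from rfl] at e0
    have e1 := rc_fin_card I (fun i => (F.L n (some i) (x : ℤ)).natAbs)
      (fun k => (val (f k) x ((n : ℤ) - x)).natAbs) (fun k => by
        have := hFL n (by omega) (some k) (x : ℤ)
        rw [show CM.L.ix k0 (some k) = (k : Fin m) from rfl] at this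
        simp only [this])
    have hrough : ∀ k, ∀ p : ℕ, p.Prime → (p : ℤ) ∣ val (f k) x ((n : ℤ) - x) →
        z0 (m * d) n' < p := by
      intro k p hp hdv
      by_contra hcon
      apply hxr p hp (by omega)
      rw [hFG n (by omega), eval_prod]
      have h5 : (p : ℤ) ∣ (lineRestrict (f k) n).eval (x : ℤ) := by
        rw [eval_lineRestrict]
        exact hdv
      exact h5.trans (Finset.dvd_prod_of_mem _ (Finset.mem_univ k))
    refine ⟨hxI, ?_, ?_, ?_, fun k => ?_⟩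
    · rw [← e0]
      exact ⟨hxp.1, fun p hp hd => rc_fin_pow (hxp.2 p hp hd)⟩
    · rw [Fintype.card_coe] at hxc
      refine hxc.trans (le_of_eq ?_)
      rw [← e1]
    · rw [← e1]
      exact hxc1
    · exact good_of_rough f hCf (z := z0 (m * d) n') (by unfold z0; omega) hzB hB01 hxI'.1 hxI'.2
        hrough (fun k h => hHx ⟨k, h⟩) k
  have hGc : (Gd.card : ℝ) ≤ good.card + 2 * ((m * d : ℕ) : ℝ) := by
    have h11 := (Finset.card_le_card hGsub).trans (Finset.card_union_le _ _)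
    have h12 : Gd.card ≤ good.card + 2 * (m * d) := by omega
    exact_mod_cast h12
  have hset : {x : ℕ | 0 < x ∧ x < n ∧ (cardFactors (val (f k0) x ((n : ℤ) - x)).natAbs ≤ 2 ∧
        ∀ p : ℕ, p.Prime → p ∣ (val (f k0) x ((n : ℤ) - x)).natAbs → n ≤ p ^ 11) ∧
      c0 * Real.log I.card ≤
        ((I.filter (fun k => (val (f k) x ((n : ℤ) - x)).natAbs.Prime)).card : ℝ) ∧
      1 ≤ (I.filter (fun k => (val (f k) x ((n : ℤ) - x)).natAbs.Prime)).card ∧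
      ∀ k, 1 < |val (f k) x ((n : ℤ) - x)| ∧
      (∀ p : ℕ, p.Prime → (p : ℤ) ∣ val (f k) x ((n : ℤ) - x) → n < p ^ B0) ∧
      cardFactors (val (f k) x ((n : ℤ) - x)).natAbs ≤ B0 * d} = (good : Set ℕ) := by
    ext x
    rw [hgood]
    simp only [Set.mem_ofPred_eq, Finset.coe_filter, Finset.mem_Ioo, and_assoc]
  rw [hset, Set.ncard_coe_finset]
  have h12 : 2 * ((m * d : ℕ) : ℝ) ≤ c / 2 * (n * F.V n n') := by
    rw [Real.rpow_zero, mul_one] at h2
    refine h2.trans ?_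
    calc (n : ℝ) * (c / 2 * c1 * (1 / Real.log n ^ (8 * (m * d)))) =
          c / 2 * (n * (c1 * (1 / Real.log n ^ (8 * (m * d))))) := by ring
      _ ≤ _ := by
          apply mul_le_mul_of_nonneg_left _ (by positivity)
          exact mul_le_mul_of_nonneg_left hVge hn0.le
  have h13 : c / 2 * (n * singV f n) ≤ c / 2 * (n * F.V n n') :=
    mul_le_mul_of_nonneg_left (mul_le_mul_of_nonneg_left hsing hn0.le) (by positivity)
  linarith only [hGc, hmain, h12, h13]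

/-- The final theorem. -/
theorem p_fin : S_fin := by
  intro hcnt hfam
  obtain ⟨c0, hc0, hcnt⟩ := hcnt
  refine ⟨c0, hc0, ?_⟩
  intro m d hm hd
  have hcore : ∀ I : Finset (Fin m), ∃ (B : ℕ) (c : ℝ), 0 < c ∧ (I.Nonempty →
    ∀ f : Fin m → MvPolynomial (Fin 2) ℤ, Admissible f → (∀ k, (f k).totalDegree ≤ d) →
    ∀ k0 : Fin m, k0 ∉ I →
    (∀ k ∈ insert k0 I, (f k).totalDegree ≤ 1) →
    (∀ k ∈ insert k0 I, ∀ l ∈ insert k0 I, k ≠ l → f k ≠ f l ∧ f k ≠ - f l) →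
    ∃ N : ℕ, ∀ n : ℕ, N ≤ n → c * (n * singV f n) ≤
    (Set.ncard {x : ℕ | 0 < x ∧ x < n ∧ (cardFactors (val (f k0) x ((n : ℤ) - x)).natAbs ≤ 2 ∧
        ∀ p : ℕ, p.Prime → p ∣ (val (f k0) x ((n : ℤ) - x)).natAbs → n ≤ p ^ 11) ∧
      c0 * Real.log I.card ≤
        ((I.filter (fun k => (val (f k) x ((n : ℤ) - x)).natAbs.Prime)).card : ℝ) ∧
      1 ≤ (I.filter (fun k => (val (f k) x ((n : ℤ) - x)).natAbs.Prime)).card ∧
      ∀ k, 1 < |val (f k) x ((n : ℤ) - x)| ∧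
      (∀ p : ℕ, p.Prime → (p : ℤ) ∣ val (f k) x ((n : ℤ) - x) → n < p ^ B) ∧
      cardFactors (val (f k) x ((n : ℤ) - x)).natAbs ≤ B * d} : ℝ)) := by
    intro I
    by_cases hI : I.Nonempty
    · obtain ⟨B, c, h1, h2⟩ := rc_fin_I hcnt hfam m d hm hd I hI
      refine ⟨B, c, h1, fun _ => ?_⟩
      intro f hf hdeg k0 hk0 hlin hne
      convert h2 f hf hdeg k0 hk0 (by convert hlin) (by convert hne)
    · exact ⟨0, 1, one_pos, fun h => absurd h hI⟩
  choose Bf cf hcf0 hcf using hcore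
  obtain ⟨B, hB⟩ : ∃ B, B = ∑ I : Finset (Fin m), Bf I := ⟨_, rfl⟩
  obtain ⟨c, hc0', hcle⟩ : ∃ c : ℝ, 0 < c ∧ ∀ I : Finset (Fin m), c ≤ cf I := by
    have h1 : ∀ s : Finset (Finset (Fin m)), ∃ c : ℝ, 0 < c ∧ ∀ I ∈ s, c ≤ cf I := by
      intro s
      induction s using Finset.induction_on with
      | empty => exact ⟨1, one_pos, fun K hK => absurd hK (by simp)⟩
      | insert a s _ ih =>
        obtain ⟨c, h2, h4⟩ := ih
        refine ⟨min c (cf a), lt_min h2 (hcf0 a), ?_⟩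
        intro K hK
        rw [Finset.mem_insert] at hK
        rcases hK with h | h
        · rw [h]; exact min_le_right _ _
        · exact (min_le_left _ _).trans (h4 K h)
    obtain ⟨c, h2, h3⟩ := h1 univ
    exact ⟨c, h2, fun I => h3 I (Finset.mem_univ I)⟩
  refine ⟨B, c, hc0', ?_⟩
  intro f hf hdeg k0 I hk0 hI hlin hne
  have hsing0 : ∀ n : ℕ, (∀ p : ℕ, p.Prime → ¬ ∀ x : ℤ, (p : ℤ) ∣
      ∏ k, (lineRestrict (f k) n).eval x) → 0 ≤ (n : ℝ) * singV f n := by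
    intro n hloc
    apply mul_nonneg (Nat.cast_nonneg _)
    unfold singV
    apply Finset.prod_nonneg
    intro p hp
    have hpp := (Finset.mem_filter.1 hp).2
    have hp0 : (0 : ℝ) < p := by exact_mod_cast hpp.pos
    have h1 : nroots f n p ≤ p := by
      unfold nroots
      refine (Finset.card_filter_le _ _).trans ?_
      rw [Finset.card_range]
    have h2 : (nroots f n p : ℝ) / p ≤ 1 := by
      rw [div_le_one hp0]
      exact_mod_cast h1
    linarith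
  have hf' := hf
  obtain ⟨N₀, hN₀⟩ := hf'
  obtain ⟨N, hN⟩ := hcf I hI f hf hdeg k0 hk0 hlin hne
  refine ⟨N + N₀, fun n hn => ?_⟩
  have h1 := hN n (by omega)
  have h2 := hsing0 n (hN₀ n (by omega)).2
  have h3 : c * (n * singV f n) ≤ cf I * (n * singV f n) :=
    mul_le_mul_of_nonneg_right (hcle _) h2
  refine h3.trans (h1.trans ?_)
  have hBle : Bf I ≤ B := by
    have := Finset.single_le_sum (f := Bf) (fun i _ => Nat.zero_le _) (Finset.mem_univ I)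
    omega
  have h4 := Set.ncard_le_ncard (s := {x : ℕ | 0 < x ∧ x < n ∧
      (cardFactors (val (f k0) x ((n : ℤ) - x)).natAbs ≤ 2 ∧
        ∀ p : ℕ, p.Prime → p ∣ (val (f k0) x ((n : ℤ) - x)).natAbs → n ≤ p ^ 11) ∧
      c0 * Real.log I.card ≤
        ((I.filter (fun k => (val (f k) x ((n : ℤ) - x)).natAbs.Prime)).card : ℝ) ∧
      1 ≤ (I.filter (fun k => (val (f k) x ((n : ℤ) - x)).natAbs.Prime)).card ∧
      ∀ k, 1 < |val (f k) x ((n : ℤ) - x)| ∧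
      (∀ p : ℕ, p.Prime → (p : ℤ) ∣ val (f k) x ((n : ℤ) - x) → n < p ^ Bf I) ∧
      cardFactors (val (f k) x ((n : ℤ) - x)).natAbs ≤ Bf I * d})
      (t := {x : ℕ | 0 < x ∧ x < n ∧
      (cardFactors (val (f k0) x ((n : ℤ) - x)).natAbs ≤ 2 ∧
        ∀ p : ℕ, p.Prime → p ∣ (val (f k0) x ((n : ℤ) - x)).natAbs → n ≤ p ^ 11) ∧
      c0 * Real.log I.card ≤
        ((I.filter (fun k => (val (f k) x ((n : ℤ) - x)).natAbs.Prime)).card : ℝ) ∧
      1 ≤ (I.filter (fun k => (val (f k) x ((n : ℤ) - x)).natAbs.Prime)).card ∧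
      ∀ k, 1 < |val (f k) x ((n : ℤ) - x)| ∧
      (∀ p : ℕ, p.Prime → (p : ℤ) ∣ val (f k) x ((n : ℤ) - x) → n < p ^ B) ∧
      cardFactors (val (f k) x ((n : ℤ) - x)).natAbs ≤ B * d})
      (by
        rintro x ⟨g1, g2, g0, g3, g4, g5⟩
        refine ⟨g1, g2, g0, g3, g4, fun k => ⟨(g5 k).1, fun p hp hd => ?_, ?_⟩⟩
        · exact ((g5 k).2.1 p hp hd).trans_le (Nat.pow_le_pow_right hp.pos hBle)
        · exact (g5 k).2.2.trans (Nat.mul_le_mul_right d hBle))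
      ((Set.finite_lt_nat n).subset (fun x hx => hx.2.1))
  exact_mod_cast h4

end Pool.Agent.RC
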