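import Pool.Agent.Lib.MP_bca3e5_nt.RC.Defs

set_option autoImplicit false
set_option linter.unusedSectionVars false

/-!
Project RC, piece gen0: the general expansion over all integers.
-/

namespace Pool.Agent.RC

open Finset
open Pool.Agent.MP89da58 (bil pw nn supp part join compat mem_supp)
open Pool.Agent.BVall (om)
open Pool.Agent.MT (PJf LocD dvI ZI sp sp_subset quad_expandI err_sum_leI)
open Pool.Agent.CH.S (RepC)

private lemma rc_gen0_prod (Y : Finset ℕ) (ρ ρ' : ℕ → ℝ) (h : ∀ p ∈ Y, 0 ≤ ρ' p ∧ ρ' p ≤ ρ p) :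
    ∏ p ∈ Y, (1 + ρ p) - ∏ p ∈ Y, (1 + ρ' p) ≤ (∑ p ∈ Y, (ρ p - ρ' p)) * ∏ p ∈ Y, (1 + ρ p) := by
  classical
  induction Y using Finset.induction_on with
  | empty => simp
  | insert a s ha ih =>
    have h0 : ∀ p ∈ s, 0 ≤ ρ' p ∧ ρ' p ≤ ρ p := fun p hp => h p (Finset.mem_insert_of_mem hp)
    obtain ⟨ha0, ha1⟩ := h a (Finset.mem_insert_self _ _)
    have ih := ih h0
    rw [Finset.prod_insert ha, Finset.prod_insert ha, Finset.sum_insert ha]
    set A := ∏ p ∈ s, (1 + ρ p) with hA
    set B := ∏ p ∈ s, (1 + ρ' p) with hB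
    have hBA : B ≤ A := Finset.prod_le_prod (fun p hp => by linarith [(h0 p hp).1])
      (fun p hp => by linarith [(h0 p hp).2])
    have hA0 : 0 ≤ A := Finset.prod_nonneg (fun p hp => by linarith [(h0 p hp).1, (h0 p hp).2])
    have hS : 0 ≤ ∑ p ∈ s, (ρ p - ρ' p) :=
      Finset.sum_nonneg fun p hp => by linarith [(h0 p hp).2]
    have e1 : (1 + ρ' a) * (A - B) ≤ (1 + ρ a) * (A - B) :=
      mul_le_mul_of_nonneg_right (by linarith) (by linarith)
    have e2 : (1 + ρ a) * (A - B) ≤ (1 + ρ a) * ((∑ p ∈ s, (ρ p - ρ' p)) * A) :=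
      mul_le_mul_of_nonneg_left ih (by linarith)
    have e3 : (ρ a - ρ' a) * A ≤ (ρ a - ρ' a) * ((1 + ρ a) * A) := by
      refine mul_le_mul_of_nonneg_left ?_ (by linarith)
      nlinarith [mul_nonneg (ha0.trans ha1) hA0]
    nlinarith

private lemma rc_gen0_prt (P1 : Finset ℕ) (q : Finset ℕ → Prop) (F : (ℕ → ℝ) → ℝ)
    (hF : RepC P1 q F) (ρ ρ' : ℕ → ℝ) (hρ : ∀ p ∈ P1, 0 ≤ ρ' p ∧ ρ' p ≤ ρ p) :
    |F ρ' - F ρ| ≤ 3 * (∑ p ∈ P1, (ρ p - ρ' p)) * ∏ p ∈ P1, (1 + ρ p) := by
  classical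
  obtain ⟨c, h1, h2, h3⟩ := hF
  have e1 : |F ρ' - F ρ| ≤ 3 * (∏ p ∈ P1, (1 + ρ p) - ∏ p ∈ P1, (1 + ρ' p)) := by
    rw [h1 ρ', h1 ρ, ← Finset.sum_sub_distrib, Finset.prod_one_add, Finset.prod_one_add,
      ← Finset.sum_sub_distrib, Finset.mul_sum]
    refine (Finset.abs_sum_le_sum_abs _ _).trans (Finset.sum_le_sum fun T hT => ?_)
    have hTP := Finset.mem_powerset.1 hT
    have h4 : ∏ p ∈ T, ρ' p ≤ ∏ p ∈ T, ρ p :=
      Finset.prod_le_prod (fun p hp => (hρ p (hTP hp)).1) (fun p hp => (hρ p (hTP hp)).2)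
    rw [← mul_sub, abs_mul, abs_sub_comm, abs_of_nonneg (sub_nonneg.2 h4)]
    exact mul_le_mul_of_nonneg_right (h2 T) (sub_nonneg.2 h4)
  refine e1.trans ?_
  rw [mul_assoc]
  exact mul_le_mul_of_nonneg_left (rc_gen0_prod P1 ρ ρ' hρ) (by norm_num)

open Classical in
theorem p_gen0 : S_gen0 := by
  intro hone hes1 hes2 ι _ _ _ P P1 D Q K0 z h Y0 F hF ρ k hk hρ hρk hρz x0 X g B r Y hB hsup
    hYr hr
  set x : PJf P → ℝ := fun j => 1 / ((j : ℕ) : ℝ) with hx
  set Pi : ℝ := ∏ p ∈ P1, (1 + ρ p) with hPi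
  have hPp : ∀ p ∈ P, p.Prime := fun p hp => (h.hP p hp).1
  have hz := h.hz
  have hzR : (0 : ℝ) < z := by exact_mod_cast (by omega : 0 < z)
  have hX0 : (0 : ℝ) ≤ X := Nat.cast_nonneg _
  have hx0 : ∀ j, 0 ≤ x j := by
    intro j
    simp only [hx]
    positivity
  have hpw0 : ∀ A, 0 ≤ pw x A := fun A => by
    unfold pw
    exact Finset.prod_nonneg fun j _ => hx0 j
  have hPi0 : 0 ≤ Pi := Finset.prod_nonneg fun p hp => by
    have := (hρ p hp).1
    linarith
  have hom0 : ∀ p, 0 ≤ (om Q p : ℝ) / p := fun p => by positivity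
  set e1 : Finset (PJf P) → ℝ := fun A =>
    ∑ T ∈ P1.powerset.filter (fun T => ∏ p ∈ T, p ≤ Y0 ∧
        Disjoint T (A.map (Function.Embedding.subtype _))),
      3 * ((K0 : ℝ) ^ (T.card + A.card) * 1) with he1
  set e2 : Finset (PJf P) → ℝ := fun A =>
    X * (3 * (2 / z) * Pi) * (pw x A * (k + A.card)) with he2
  have he10 : ∀ A, 0 ≤ e1 A := fun A => Finset.sum_nonneg fun T _ => by positivity
  have he20 : ∀ A, 0 ≤ e2 A := fun A =>
    mul_nonneg (mul_nonneg hX0 (by positivity)) (mul_nonneg (hpw0 A) (by positivity))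
  have key := quad_expandI D h.hcop x g (range X) (fun i : ℕ => x0 + i)
    (fun i : ℕ => F (fun p => if Q p (x0 + i) then (1 : ℝ) else 0))
    (X * F ρ) (fun γ => e1 (supp γ) + e2 (supp γ)) (by
      intro α β hα hβ _
      set γ := join α β with hγ
      have h1 := hone ι P P1 D Q K0 z h Y0 F hF x0 X γ
      have h2 := rc_gen0_prt P1 _ F hF ρ (fun p => if p ∈ sp γ then 0 else (om Q p : ℝ) / p) (by
          intro p hp
          split_ifs
          · exact ⟨le_rfl, (hρ p hp).1⟩
          · exact ⟨hom0 p, (hρ p hp).2⟩)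
      have h3 : ∑ p ∈ P1, (ρ p - (if p ∈ sp γ then 0 else (om Q p : ℝ) / p)) ≤
          (k + (supp γ).card) * (2 / z) := by
        have h4 : ∀ p ∈ P1, ρ p - (if p ∈ sp γ then 0 else (om Q p : ℝ) / p) ≤
            (ρ p - (om Q p : ℝ) / p) + (if p ∈ sp γ then (2 / z : ℝ) else 0) := by
          intro p hp
          split_ifs with h5
          · have h6 := hρz p hp (h.hP p (sp_subset γ h5)).2
            have h7 := (hρ p hp).2
            linarith
          · linarith
        refine (Finset.sum_le_sum h4).trans ?_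
        rw [Finset.sum_add_distrib, ← Finset.sum_filter, Finset.sum_const, nsmul_eq_mul, add_mul]
        refine add_le_add hρk (mul_le_mul_of_nonneg_right ?_ (by positivity))
        have h5 : (P1.filter (fun p => p ∈ sp γ)).card ≤ (supp γ).card := by
          refine (Finset.card_le_card (fun p hp => (Finset.mem_filter.1 hp).2)).trans ?_
          unfold sp
          rw [Finset.card_map]
        exact_mod_cast h5
      have h6 : |F (fun p => if p ∈ sp γ then 0 else (om Q p : ℝ) / p) - F ρ| ≤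
          3 * ((k + (supp γ).card) * (2 / z)) * Pi := by
        refine h2.trans ?_
        refine mul_le_mul_of_nonneg_right ?_ hPi0
        exact mul_le_mul_of_nonneg_left h3 (by norm_num)
      have h7 : (∑ i ∈ range X, if dvI D (x0 + i) γ then
          F (fun p => if Q p (x0 + i) then (1 : ℝ) else 0) else 0) -
          X * F ρ * pw x (supp γ) =
          ((∑ i ∈ range X, if dvI D (x0 + i) γ then
          F (fun p => if Q p (x0 + i) then (1 : ℝ) else 0) else 0) -
            X * pw x (supp γ) * F (fun p => if p ∈ sp γ then 0 else (om Q p : ℝ) / p)) +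
          X * pw x (supp γ) *
            (F (fun p => if p ∈ sp γ then 0 else (om Q p : ℝ) / p) - F ρ) := by ring
      rw [h7]
      refine (abs_add_le _ _).trans (add_le_add ?_ ?_)
      · simp only [he1, mul_one]
        exact h1
      · rw [abs_mul, abs_of_nonneg (mul_nonneg hX0 (hpw0 _))]
        refine (mul_le_mul_of_nonneg_left h6 (mul_nonneg hX0 (hpw0 _))).trans (le_of_eq ?_)
        simp only [he2]
        ring)
  refine key.trans ?_
  have h2 := err_sum_leI (fun j : PJf P => (j : ℕ)) (fun j => (hPp j.1 j.2).one_le) g B Y hB hsup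
    (fun A => e1 A + e2 A) (fun A => add_nonneg (he10 A) (he20 A))
  refine h2.trans ?_
  refine mul_le_mul_of_nonneg_left ?_ (sq_nonneg B)
  simp only [mul_add]
  rw [Finset.sum_add_distrib]
  have hι : 1 ≤ Fintype.card ι := Fintype.card_pos
  refine add_le_add ?_ ?_
  · have h3 := hes1 P P1 hPp h.hP1 (3 * Fintype.card ι) K0 Y Y0 (by omega) h.hK (fun _ => 1)
      (fun _ => zero_le_one)
    rw [show 2 * (3 * Fintype.card ι) * K0 = 6 * Fintype.card ι * K0 by ring] at h3
    simp only [mul_one] at h3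
    simp only [he1, mul_one]
    exact h3
  · have h3 := hes2 (PJf P) (fun j => (j : ℕ)) x (3 * Fintype.card ι) k r Y
      (fun j => (hPp j.1 j.2).two_le) hx0 (by positivity) hk hYr hr
    have h4 : ∑ A ∈ (Finset.univ : Finset (Finset (PJf P))).filter
        (fun A => nn (fun j : PJf P => (j : ℕ)) A ≤ Y * Y),
        ((3 * Fintype.card ι : ℕ) : ℝ) ^ A.card * e2 A = X * (3 * (2 / z) * Pi) *
        ∑ A ∈ (Finset.univ : Finset (Finset (PJf P))).filter
          (fun A => nn (fun j : PJf P => (j : ℕ)) A ≤ Y * Y),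
          (3 * Fintype.card ι : ℝ) ^ A.card * (pw x A * (k + A.card)) := by
      rw [Finset.mul_sum]
      apply Finset.sum_congr rfl
      intro A _
      simp only [he2]
      push_cast
      ring
    rw [h4]
    refine (mul_le_mul_of_nonneg_left h3 (mul_nonneg hX0 (by positivity))).trans ?_
    refine mul_le_mul_of_nonneg_left ?_ (mul_nonneg hX0 (by positivity))
    refine mul_le_mul_of_nonneg_left ?_ (by positivity)
    refine Finset.prod_le_prod (fun j _ => ?_) (fun j _ => ?_)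
    · have := hx0 j
      positivity
    · have h5 : (2 : ℝ) ≤ ((j : ℕ) : ℝ) := by exact_mod_cast (hPp j.1 j.2).two_le
      have h6 : x j ≤ 1 / (((j : ℕ) : ℝ) - 1) := by
        simp only [hx]
        exact one_div_le_one_div_of_le (by linarith) (by linarith)
      have h7 : (0 : ℝ) ≤ 3 * Fintype.card ι := by positivity
      have := mul_le_mul_of_nonneg_left h6 h7
      linarith

end Pool.Agent.RC
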