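import Pool.Agent.Lib.MP_bca3e5_nt.RC.Defs

set_option autoImplicit false

/-!
Project RC: the upper bound for the main term, sifting limit `n^(1/11)`.
-/

namespace Pool.Agent.RC

open Finset Filter
open Pool.Agent.CH.S (th Pr gd V Mer SS UpC LoC)
open Pool.Agent.CM (F3 kz lD)

/-- the sieve functions only depend on the values at the primes `≥ a` -/
lemma rc_mn_th {a : ℕ} {ρ ρ' : ℕ → ℝ} (h : ∀ p, a ≤ p → ρ p = ρ' p) (w : ℕ) :
    ∀ (b : Bool) (D : ℝ), th a ρ w b D = th a ρ' w b D := by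
  induction w with
  | zero =>
    intro b D
    rfl
  | succ w ih =>
    intro b D
    simp only [th]
    rw [ih b D, ih (!b) (D / w)]
    by_cases hw : w.Prime ∧ a ≤ w ∧ (b = true → (w : ℝ) ^ 3 < D)
    · rw [if_pos hw, if_pos hw, h w hw.2.1]
    · rw [if_neg hw, if_neg hw]

theorem p_mn : S_mn := by
  rintro ⟨u, l, U, L', K, hSS, hu3, hl273, hu273, hT2⟩ htel hmer hls B0 hB0
  have hB0' : (1 : ℝ) ≤ B0 := by exact_mod_cast hB0
  obtain ⟨ε, hε, hlin⟩ := hls u l U L' K hSS (3 * B0 + 3) (by linarith)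
  obtain ⟨a0, ha0, hM⟩ := hmer ε hε
  have hlog : Tendsto (fun n : ℕ => Real.log (n : ℝ)) atTop atTop :=
    Real.tendsto_log_atTop.comp tendsto_natCast_atTop_atTop
  filter_upwards [hlog.eventually_ge_atTop 100, eventually_ge_atTop (a0 ^ B0)] with n hn1 hn2
  intro z hz1 hz2 Fp ρ V0 hV0 hp1 hp2 hρ
  have hz : a0 ≤ z := by
    by_contra h
    have h1 : z ^ B0 < a0 ^ B0 := Nat.pow_lt_pow_left (by omega) (by omega)
    omega
  set L : ℝ := Real.log n with hL
  have hn0 : (0 : ℝ) < n := by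
    rcases Nat.eq_zero_or_pos n with h | h
    · exfalso
      rw [h, Nat.cast_zero, Real.log_zero] at hL
      linarith
    · exact_mod_cast h
  have hz3 : (3 : ℝ) ≤ z := by exact_mod_cast le_trans ha0 hz
  set w : ℝ := (n : ℝ) ^ (1 / 11 : ℝ) with hw
  have hw0 : 0 < w := Real.rpow_pos_of_pos hn0 _
  have hD0 : 0 < lD n := Real.rpow_pos_of_pos hn0 _
  have hlw : Real.log w = L / 11 := by
    rw [hw, Real.log_rpow hn0]
    ring
  have hlD : Real.log (lD n) = 273 / 550 * L := by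
    unfold lD
    rw [Real.log_rpow hn0]
  have hx0 : 0 < (n : ℝ) ^ (1 / 1000 : ℝ) := Real.rpow_pos_of_pos hn0 _
  have hcz : kz n = ⌈w⌉₊ := rfl
  have haw : ((z + 1 : ℕ) : ℝ) ≤ w := by
    have h1 : 2 * (n : ℝ) ^ (1 / 1000 : ℝ) ≤ w := by
      rw [← Real.log_le_log_iff (by positivity) hw0, hlw,
        Real.log_mul (by norm_num) hx0.ne', Real.log_rpow hn0]
      have := Real.log_two_lt_d9
      linarith
    push_cast
    linarith
  -- the range of the level
  have hLz : L ≤ B0 * Real.log (z : ℝ) := by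
    have h1 : (n : ℝ) ≤ (z : ℝ) ^ B0 := by exact_mod_cast hz1
    have h2 := Real.log_le_log hn0 h1
    rwa [Real.log_pow] at h2
  have hla : Real.log (z : ℝ) ≤ Real.log ((z + 1 : ℕ) : ℝ) := by
    apply Real.log_le_log (by linarith)
    push_cast
    linarith
  have hlz0 : 0 ≤ Real.log (z : ℝ) := Real.log_nonneg (by linarith)
  have hSa : L ≤ (3 * B0 + 3) * Real.log ((z + 1 : ℕ) : ℝ) := by
    have h1 : (B0 : ℝ) * Real.log (z : ℝ) ≤ B0 * Real.log ((z + 1 : ℕ) : ℝ) :=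
      mul_le_mul_of_nonneg_left hla (by linarith)
    have h2 : 0 ≤ (B0 : ℝ) * Real.log ((z + 1 : ℕ) : ℝ) :=
      mul_nonneg (by linarith) (hlz0.trans hla)
    have h3 : 0 ≤ Real.log ((z + 1 : ℕ) : ℝ) := hlz0.trans hla
    nlinarith
  have hlin' := hlin (z + 1) (by omega) (hM (z + 1) (by omega))
  have hrat : Real.log (lD n) / Real.log w = 273 / 50 := by
    rw [hlw, hlD]
    have : L ≠ 0 := by linarith
    field_simp
    norm_num
  have hV1 := (htel (z + 1) (by omega)).1 (kz n)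
  set V1 : ℝ := V (z + 1) (kz n) with hV1d
  have hwD : w ≤ lD n := by
    rw [← Real.log_le_log_iff hw0 hD0, hlw, hlD]
    linarith
  obtain ⟨hup, -⟩ := hlin' (lD n) w haw hwD (by rw [hlD]; linarith)
  unfold UpC at hup
  rw [hrat, ← hcz, ← hV1d] at hup
  have hBp : th (z + 1) gd (kz n) true (lD n) ≤ V1 * (1 + 17 / 10000) :=
    hup.trans (mul_le_mul_of_nonneg_left (by linarith) hV1.1.le)
  have hthρ : th (z + 1) ρ (kz n) true (lD n) = th (z + 1) gd (kz n) true (lD n) :=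
    rc_mn_th (fun p hp => hρ p (by omega)) _ _ _
  have hAp0 : 0 ≤ Fp ρ := hV0.trans hp1
  unfold F3
  rw [hthρ]
  have h6 : 0 ≤ V1 * (1 + 17 / 10000) := mul_nonneg hV1.1.le (by norm_num)
  have g0 : 0 ≤ V0 * V1 := mul_nonneg hV0 hV1.1.le
  calc Fp ρ * th (z + 1) gd (kz n) true (lD n) ≤ Fp ρ * (V1 * (1 + 17 / 10000)) :=
        mul_le_mul_of_nonneg_left hBp hAp0
    _ ≤ ((1 + 1 / 1000) * V0) * (V1 * (1 + 17 / 10000)) :=
        mul_le_mul_of_nonneg_right hp2 h6
    _ = (1 + 1 / 1000) * (1 + 17 / 10000) * (V0 * V1) := by ring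
    _ ≤ 101 / 100 * (V0 * V1) := mul_le_mul_of_nonneg_right (by norm_num) g0

end Pool.Agent.RC
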