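import Pool.Agent.Lib.MP_bca3e5_nt.RC.Defs
import Pool.Agent.Lib.MP_0da313_nt.CM.P.win

set_option autoImplicit false

/-!
Project RC: the points in the windows are near the centre.
-/

namespace Pool.Agent.RC

open Finset Filter
open Pool.Agent.MP89da58 (tri)
open Pool.Agent.CM (Fam wd)
open Pool.Agent.CM.L (WD)

theorem p_nr : S_nr := by
  intro ι _ _ D F
  have ht : ∀ l, 0 < F.t l := by
    intro l
    have hu : 0 < |(F.u l : ℝ)| := abs_pos.mpr (by exact_mod_cast F.hu l)
    have h1 : 0 < |(F.u l : ℝ)| * F.hw := mul_pos hu F.hhw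
    have h2 : 1000 * (|(F.u l : ℝ)| * F.hw) ≤ F.t l := F.hth l
    linarith
  have hev : ∀ᶠ n : ℕ in atTop, ∀ l, |(F.c l : ℝ)| ≤ 1 / 100000 * (F.t l * n) := by
    rw [Filter.eventually_all]
    intro l
    have hl : Tendsto (fun n : ℕ => F.t l * (n : ℝ)) atTop atTop :=
      tendsto_natCast_atTop_atTop.const_mul_atTop (ht l)
    filter_upwards [hl.eventually_ge_atTop (100000 * |(F.c l : ℝ)|)] with n h1
    linarith
  filter_upwards [hev, Filter.eventually_gt_atTop 0] with n hn hn0
  have hnR : (0 : ℝ) < n := by exact_mod_cast hn0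
  intro l x hpos hwi
  have H : WD (F.u l) (F.t l * n) (F.X n l) (F.hw * n) (if l = none then 1 else 99 / 100)
      (F.la l) := by
    have hc := abs_le.mp (hn l)
    refine ⟨by exact_mod_cast F.hu l, mul_pos F.hhw hnR, ?_, ?_, ?_, ?_, ?_, ?_⟩
    · have h2 : 1000 * (|(F.u l : ℝ)| * F.hw) ≤ F.t l := F.hth l
      calc 1000 * (|(F.u l : ℝ)| * (F.hw * n)) = 1000 * (|(F.u l : ℝ)| * F.hw) * n := by ring
        _ ≤ F.t l * n := mul_le_mul_of_nonneg_right h2 hnR.le
    · unfold Fam.X; linarith [hc.1]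
    · unfold Fam.X; linarith [hc.2]
    · split_ifs <;> norm_num
    · split_ifs <;> norm_num
    · unfold Fam.la
      congr 1
      rw [← mul_assoc, mul_div_mul_right _ _ hnR.ne']
  have hL : (F.L n l x : ℝ) = F.X n l + F.u l * ((x : ℝ) - F.xi * n) := by
    unfold Fam.L Fam.v Fam.X Fam.t
    push_cast
    ring
  have hN : ((F.L n l x).toNat : ℝ) = F.L n l x := by
    have : ((F.L n l x).toNat : ℤ) = F.L n l x := Int.toNat_of_nonneg hpos.le
    exact_mod_cast this
  unfold Fam.wi wd at hwi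
  rw [hN, hL] at hwi
  have hloc : |(x : ℝ) - F.xi * n| ≤ 102 / 100 * (F.hw * n) := by
    apply H.loc
    · rw [← hL]
      exact_mod_cast hpos
    · by_contra hc
      apply hwi
      unfold tri
      rw [max_eq_left]
      linarith [not_lt.1 hc]
  unfold Near
  refine hloc.trans ?_
  have : 0 ≤ F.hw * n := mul_nonneg F.hhw.le hnR.le
  linarith

end Pool.Agent.RC
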