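import Pool.Agent.Lib.MP_bca3e5_nt.RC.Defs
import Pool.Agent.Lib.MP_0da313_nt.CM.P.one2
import Pool.Agent.Lib.MP_0da313_nt.Count

set_option autoImplicit false
set_option linter.unusedSectionVars false

/-!
Project RC, piece one0: the sum for one support, over all integers of an interval.
-/

namespace Pool.Agent.RC

open Finset
open Pool.Agent.MP89da58 (bil pw nn supp part kapD mem_supp)
open Pool.Agent.MT (PJf LocD dvI ZI sp sp_subset)
open Pool.Agent.BVall (om)
open Pool.Agent.CH.S (RepC)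
open Pool.Agent.CM.G (Qd mem_sp Qd_not_mem Qd_mem prod_Qd prod_sp' card_sp' Qd_per om_Qd_mem
  om_Qd_not_mem)

open Classical in
/-- the number of classes is invariant under translations -/
private lemma rc_one0_shift (R : ℤ → Prop) (p : ℕ) (hp : 0 < p)
    (hR : ∀ x y : ℤ, (p : ℤ) ∣ x - y → (R x ↔ R y)) (c : ℤ) :
    ((range p).filter (fun k : ℕ => R (c + k))).card =
      ((range p).filter (fun k : ℕ => R (k : ℤ))).card := by
  have hp' : (0 : ℤ) < p := by exact_mod_cast hp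
  have hp0 : (p : ℤ) ≠ 0 := hp'.ne'
  have hc : ∀ a : ℤ, (((a % p).toNat : ℕ) : ℤ) = a % p := fun a =>
    Int.toNat_of_nonneg (Int.emod_nonneg a hp0)
  have hlt : ∀ a : ℤ, (a % p).toNat < p := fun a => by
    have h1 := Int.emod_lt_of_pos a hp'
    have h2 := hc a
    omega
  have hmod : ∀ k : ℕ, k < p → (k : ℤ) % p = k := fun k hk =>
    Int.emod_eq_of_lt (by positivity) (by exact_mod_cast hk)
  refine Finset.card_bij' (fun k _ => ((c + k) % p).toNat) (fun k _ => ((k - c) % p).toNat)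
    ?_ ?_ ?_ ?_
  · intro k hk
    rw [mem_filter, mem_range] at hk ⊢
    refine ⟨hlt _, ?_⟩
    rw [hc]
    refine (hR _ _ ?_).1 hk.2
    exact Int.dvd_self_sub_emod
  · intro k hk
    rw [mem_filter, mem_range] at hk ⊢
    refine ⟨hlt _, ?_⟩
    rw [hc]
    refine (hR _ _ ?_).1 hk.2
    have h1 : (p : ℤ) ∣ ((k : ℤ) - c) - ((k : ℤ) - c) % p := Int.dvd_self_sub_emod
    have h2 : (k : ℤ) - (c + ((k : ℤ) - c) % p) = ((k : ℤ) - c) - ((k : ℤ) - c) % p := by ring
    rw [h2]
    exact h1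
  · intro k hk
    rw [mem_filter, mem_range] at hk
    change ((((((c + k) % p).toNat : ℕ) : ℤ) - c) % p).toNat = k
    rw [hc]
    have h1 : ((c + k) % p - c) % (p : ℤ) = k := by
      rw [Int.sub_emod, Int.emod_emod_of_dvd _ (dvd_refl (p : ℤ)), ← Int.sub_emod]
      rw [add_sub_cancel_left]
      exact hmod k hk.1
    rw [h1, Int.toNat_natCast]
  · intro k hk
    rw [mem_filter, mem_range] at hk
    change ((c + ((((k : ℤ) - c) % p).toNat : ℕ)) % (p : ℤ)).toNat = k
    rw [hc]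
    have h1 : (c + ((k : ℤ) - c) % p) % (p : ℤ) = k := by
      rw [Int.add_emod, Int.emod_emod_of_dvd _ (dvd_refl (p : ℤ)), ← Int.add_emod]
      rw [add_sub_cancel]
      exact hmod k hk.1
    rw [h1, Int.toNat_natCast]

open Classical in
theorem p_one0 : S_one0 := by
  intro ι _ _ P P1 D Q K0 z h Y0 F hF x0 X γ
  obtain ⟨c, hc1, hc2, hc3⟩ := hF
  have hPp : ∀ p ∈ P, p.Prime := fun p hp => (h.hP p hp).1
  -- expansion of both sides
  have e1 : ∑ k ∈ range X, (if dvI D (x0 + k) γ then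
        F (fun p => if Q p (x0 + k) then (1 : ℝ) else 0) else 0) =
      ∑ T ∈ P1.powerset, c T * ∑ k ∈ range X, (if dvI D (x0 + k) γ then
        ∏ p ∈ T, (if Q p (x0 + k) then (1 : ℝ) else 0) else 0) := by
    simp only [Finset.mul_sum]
    rw [Finset.sum_comm]
    apply Finset.sum_congr rfl
    intro n _
    rw [hc1]
    split_ifs
    · rfl
    · simp
  have e2 : X * pw (fun j : PJf P => 1 / ((j : ℕ) : ℝ)) (supp γ) *
      F (fun p => if p ∈ sp γ then 0 else (om Q p : ℝ) / p) =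
      ∑ T ∈ P1.powerset, c T * (X * pw (fun j : PJf P => 1 / ((j : ℕ) : ℝ)) (supp γ) *
        ∏ p ∈ T, (if p ∈ sp γ then 0 else (om Q p : ℝ) / p)) := by
    rw [hc1, Finset.mul_sum]
    apply Finset.sum_congr rfl
    intro T _
    ring
  rw [e1, e2, ← Finset.sum_sub_distrib]
  refine (Finset.abs_sum_le_sum_abs _ _).trans ?_
  rw [Finset.sum_filter]
  refine Finset.sum_le_sum fun T hT => ?_
  have hTP := Finset.mem_powerset.1 hT
  have hTp : ∀ p ∈ T, p.Prime := fun p hp => h.hP1 p (hTP hp)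
  have hR0 : 0 ≤ 3 * (K0 : ℝ) ^ (T.card + (supp γ).card) := by positivity
  rw [← mul_sub, abs_mul]
  by_cases hcT : c T = 0
  · rw [hcT, abs_zero, zero_mul]
    split_ifs
    · exact hR0
    · exact le_rfl
  by_cases hd : Disjoint T (sp γ)
  · rw [if_pos ⟨hc3 T hT hcT, hd⟩]
    refine mul_le_mul (hc2 T) ?_ (abs_nonneg _) (by norm_num)
    have hTp2 : ∀ p ∈ T ∪ sp γ, p.Prime := by
      intro p hp
      rw [Finset.mem_union] at hp
      rcases hp with hp | hp
      · exact hTp p hp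
      · exact hPp p (sp_subset γ hp)
    have e3 : ∀ j ∈ supp γ, om (Qd D Q γ) (j : ℕ) = 1 := by
      intro j hj
      obtain ⟨l, hl⟩ := Option.ne_none_iff_exists'.1 (mem_supp.1 hj)
      exact om_Qd_mem h.hD j hl trivial
    have e4 : ∀ p ∈ T, om (Qd D Q γ) p = om Q p := by
      intro p hp
      exact om_Qd_not_mem (fun h => (Finset.disjoint_left.1 hd) hp h)
    have hK0 := h.hK
    have hKc : ∀ p ∈ T ∪ sp γ, om (Qd D Q γ) p ≤ K0 := by
      intro p hp
      rw [Finset.mem_union] at hp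
      rcases hp with hp | hp
      · rw [e4 p hp]
        exact h.hom p (hTp p hp)
      · unfold Pool.Agent.MT.sp at hp
        rw [Finset.mem_map] at hp
        obtain ⟨j, hj, rfl⟩ := hp
        have h5 := e3 j hj
        change om (Qd D Q γ) (j : ℕ) ≤ K0
        omega
    have hper := Qd_per (γ := γ) h.hD h.hQ
    have h2 := Pool.Agent.Lib.MP_0da313_nt.count_estimate
      (fun p (k : ℕ) => Qd D Q γ p (x0 - 1 + k)) (by
        intro p k
        apply hper
        have := Nat.div_add_mod k p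
        refine ⟨-((k / p : ℕ) : ℤ), ?_⟩
        have h3 : (p : ℤ) * ((k / p : ℕ) : ℤ) + ((k % p : ℕ) : ℤ) = k := by exact_mod_cast this
        linear_combination h3) (T ∪ sp γ) hTp2 X
    have e5 : ∀ p ∈ T ∪ sp γ, (((range p).filter
        (fun k : ℕ => Qd D Q γ p (x0 - 1 + k))).card : ℝ) = (om (Qd D Q γ) p : ℝ) := by
      intro p hp
      rw [rc_one0_shift (Qd D Q γ p) p (hTp2 p hp).pos (hper p) (x0 - 1)]
      rfl
    have e6 : ∑ k ∈ Ico 1 (1 + X), ∏ p ∈ T ∪ sp γ,
        (if Qd D Q γ p (x0 - 1 + k) then (1 : ℝ) else 0) =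
        ∑ k ∈ range X, (if dvI D (x0 + k) γ then
          ∏ p ∈ T, (if Q p (x0 + k) then (1 : ℝ) else 0) else 0) := by
      rw [Finset.sum_Ico_eq_sum_range, Nat.add_sub_cancel_left]
      apply Finset.sum_congr rfl
      intro k _
      have e7 : x0 - 1 + ((1 + k : ℕ) : ℤ) = x0 + k := by push_cast; ring
      rw [e7, prod_Qd hd]
      split_ifs <;> ring
    rw [e6, Finset.prod_congr rfl (fun p hp => by rw [e5 p hp] :
        ∀ p ∈ T ∪ sp γ, (((range p).filter
          (fun k : ℕ => Qd D Q γ p (x0 - 1 + k))).card : ℝ) / p = (om (Qd D Q γ) p : ℝ) / p),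
      Finset.prod_congr rfl e5] at h2
    rw [prod_sp' hd (fun p => (om (Qd D Q γ) p : ℝ) / p)] at h2
    have e8 : ∏ p ∈ T, ((om (Qd D Q γ) p : ℝ) / p) =
        ∏ p ∈ T, (if p ∈ sp γ then 0 else (om Q p : ℝ) / p) := by
      apply Finset.prod_congr rfl
      intro p hp
      rw [if_neg (fun h => (Finset.disjoint_left.1 hd) hp h), e4 p hp]
    have e9 : ∏ j ∈ supp γ, ((om (Qd D Q γ) (j : ℕ) : ℝ) / ((j : ℕ) : ℝ)) =
        pw (fun j : PJf P => 1 / ((j : ℕ) : ℝ)) (supp γ) := by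
      unfold Pool.Agent.MP89da58.pw
      apply Finset.prod_congr rfl
      intro j hj
      rw [e3 j hj, Nat.cast_one]
    rw [e8, e9] at h2
    have e10 : (X : ℝ) * pw (fun j : PJf P => 1 / ((j : ℕ) : ℝ)) (supp γ) *
        ∏ p ∈ T, (if p ∈ sp γ then 0 else (om Q p : ℝ) / p) =
        X * ((∏ p ∈ T, (if p ∈ sp γ then 0 else (om Q p : ℝ) / p)) *
          pw (fun j : PJf P => 1 / ((j : ℕ) : ℝ)) (supp γ)) := by ring
    rw [e10]
    refine h2.trans ?_
    rw [← card_sp' hd, ← Finset.prod_const]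
    apply Finset.prod_le_prod
    · intro p _; positivity
    · intro p hp
      exact_mod_cast hKc p hp
  · rw [if_neg (fun h' => hd h'.2)]
    obtain ⟨p, hp1, hp2⟩ := Finset.not_disjoint_iff.1 hd
    obtain ⟨hpP, l, hl⟩ := mem_sp.1 hp2
    have e9 : ∏ p ∈ T, (if p ∈ sp γ then 0 else (om Q p : ℝ) / p) = 0 :=
      Finset.prod_eq_zero hp1 (if_pos hp2)
    have e10 : ∑ k ∈ range X, (if dvI D (x0 + k) γ then
        ∏ p ∈ T, (if Q p (x0 + k) then (1 : ℝ) else 0) else 0) = 0 := by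
      apply Finset.sum_eq_zero
      intro k _
      split_ifs with h3
      · have h4 : D ⟨p, hpP⟩ l (x0 + k) := h3 _ l hl
        have h5 := h.hex ⟨p, hpP⟩ l _ h4
        rw [Finset.prod_eq_zero hp1 (if_neg h5)]
      · rfl
    rw [e9, e10]
    simp

end Pool.Agent.RC
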