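import Pool.Agent.Lib.MP_bca3e5_nt.RC.Defs
import Pool.Agent.Lib.MP_0da313_nt.CM.P.pw1

set_option autoImplicit false

/-!
[RC pwr]: the pointwise lower bound, restricted to the rough points.
-/

namespace Pool.Agent.RC

open Finset Filter Polynomial
open ArithmeticFunction (cardFactors)
open Pool.Agent.MP89da58 (bil pw nn supp part kapD)
open Pool.Agent.MT (PJf LocD dvI ZI sp)
open Pool.Agent.BVall (om PK lev mem_PK)
open Pool.Agent.Lib.MP_0da313_nt (Admissible lineRestrict val singV W small)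
open Pool.Agent.CH.S (th Pr gd RepC V)
open Pool.Agent.CM (Fam F12 F3 kz ky k3 lD al cv z0)
open Pool.Agent.CM.W (WPk yM)
open Pool.Agent.CM.F (DF qf Par Pre Wts)

open Classical in
theorem rc_pwr_pt {ι : Type} [Fintype ι] [DecidableEq ι] {D C n n' : ℕ} (F : Fam ι D)
    (hpt : CM.S.R_pt) (hchn : CM.F.R_chn) (hn : F.N0 ≤ n) {Fp Fm : (ℕ → ℝ) → ℝ}
    (hF : Pre D n' Fp Fm)
    (x : ℤ) (i : ι) (hN : (F.L n none x).toNat.Prime) (hNk : kz n ≤ (F.L n none x).toNat)
    (hNy : ky C n ≤ (F.L n none x).toNat) (hzk : z0 D n' < kz n) (hk2 : 2 ≤ kz n)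
    (hm0 : 0 < F.L n (some i) x) (hmC : F.L n (some i) x < C * n) :
    F12 Fp Fm (z0 D n' + 1) (kz n) (ky C n) (lD n) (F.ri n (z0 D n') none (some i) x) -
      1 / 2 * (if F.Rg n (z0 D n') x then cv (al C n) (F.L n (some i) x).toNat else 0) ≤
    if F.Rg n (z0 D n') x ∧ Rou (kz n) (F.L n (some i) x).toNat then
      ((if cardFactors (F.L n (some i) x).toNat ≤ 2 then (1 : ℝ) else 0) +
        (if ∃ q : ℕ, q.Prime ∧ kz n ≤ q ∧ q ^ 2 ∣ (F.L n (some i) x).toNat then 1 else 0))
      else 0 := by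
  obtain ⟨z, hzd⟩ : ∃ z, z = z0 D n' := ⟨_, rfl⟩
  rw [← hzd] at hzk ⊢
  set ρ := F.ri n z none (some i) x with hρ
  have h01 : ∀ p, 0 ≤ ρ p ∧ ρ p ≤ 1 := by
    intro p
    rw [hρ]
    unfold Fam.ri
    split_ifs <;> norm_num
  have hpre := hF.pt ρ (fun p _ => h01 p)
  have hmain := (hpt (PK (2 * D) n') (z + 1) (kz n) (ky C n) (kz n) (lD n) Fp Fm ρ h01
    hpre.1 hpre.2).1
  set f12 := F12 Fp Fm (z + 1) (kz n) (ky C n) (lD n) ρ with hf12
  have hL0 : 0 < F.L n none x := by
    have := hN.pos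
    omega
  have hNd : ∀ p : ℕ, p.Prime → p < (F.L n none x).toNat → ¬ (p : ℤ) ∣ F.L n none x := by
    intro p hp hlt hd
    have h1 : (p : ℤ) ∣ ((F.L n none x).toNat : ℤ) := by
      rwa [Int.toNat_of_nonneg hL0.le]
    have h2 : p ∣ (F.L n none x).toNat := by exact_mod_cast h1
    rcases (Nat.dvd_prime hN).1 h2 with h3 | h3
    · exact hp.one_lt.ne' h3
    · omega
  have hGx : (F.G n).eval x = F.L n none x * (F.Gc n none).eval x := by
    rw [F.hG n hn none, eval_mul]
    congr 1
    simp [Fam.L, Fam.v]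
  have hGi : F.L n (some i) x ∣ (F.G n).eval x := by
    rw [F.hG n hn (some i), eval_mul]
    have : (Polynomial.C (F.u (some i)) * Polynomial.X +
        Polynomial.C (F.b (some i) * (n : ℤ) + F.c (some i)) : ℤ[X]).eval x =
        F.L n (some i) x := by
      simp [Fam.L, Fam.v]
    rw [this]
    exact dvd_mul_right _ _
  -- values of the indicator
  have hρ1 : ∀ p : ℕ, p.Prime → p ≤ z → (p : ℤ) ∣ (F.G n).eval x → ρ p = 1 := by
    intro p hp hpz hd
    have hnd := hNd p hp (by omega)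
    rw [hρ]
    unfold Fam.ri
    rw [if_pos]
    refine ⟨?_, hnd⟩
    rw [if_pos hpz]
    rw [hGx] at hd
    exact ((Nat.prime_iff_prime_int.1 hp).dvd_or_dvd hd).resolve_left hnd
  have hρ2 : ∀ p : ℕ, p.Prime → z < p → p < (F.L n none x).toNat →
      (p : ℤ) ∣ F.L n (some i) x → ρ p = 1 := by
    intro p hp hpz hlt hd
    rw [hρ]
    unfold Fam.ri
    rw [if_pos]
    refine ⟨?_, hNd p hp hlt⟩
    rw [if_neg (by omega)]
    exact hd
  have hW0 : ∀ (s : Finset ℕ) (p : ℕ), p ∈ s → ρ p = 1 → W ρ s = 0 := by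
    intro s p hp h1
    unfold W
    exact Finset.prod_eq_zero hp (by rw [h1, sub_self])
  have hcv : 0 ≤ cv (al C n) (F.L n (some i) x).toNat := CM.F.cm_pw1_cv
  have hos : (0 : ℝ) ≤ (if cardFactors (F.L n (some i) x).toNat ≤ 2 then (1 : ℝ) else 0) +
        (if ∃ q : ℕ, q.Prime ∧ kz n ≤ q ∧ q ^ 2 ∣ (F.L n (some i) x).toNat then 1 else 0) := by
    split_ifs <;> norm_num
  have hnat : ∀ p : ℕ, p ∣ (F.L n (some i) x).toNat ↔ (p : ℤ) ∣ F.L n (some i) x := by
    intro p
    have h5 : (p : ℤ) ∣ ((F.L n (some i) x).toNat : ℤ) ↔ p ∣ (F.L n (some i) x).toNat := by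
      exact Int.natCast_dvd_natCast
    rw [← h5, Int.toNat_of_nonneg hm0.le]
  by_cases hR : F.Rg n z x
  · by_cases hd : ∃ p : ℕ, p.Prime ∧ z < p ∧ p < kz n ∧ (p : ℤ) ∣ F.L n (some i) x
    · obtain ⟨p, hp, hpz, hpk, hdv⟩ := hd
      have hnr : ¬ (F.Rg n z x ∧ Rou (kz n) (F.L n (some i) x).toNat) := by
        rintro ⟨-, h⟩
        have := h p hp ((hnat p).2 hdv)
        omega
      rw [if_pos hR, if_neg hnr]
      have h1 : W ρ (Pr (z + 1) (kz n)) = 0 := by
        apply hW0 _ p _ (hρ2 p hp hpz (by omega) hdv)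
        unfold Pr
        rw [Finset.mem_filter, Finset.mem_range]
        exact ⟨hpk, hp, by omega⟩
      rw [h1, mul_zero, zero_mul] at hmain
      linarith
    · push Not at hd
      have hall : ∀ p : ℕ, p.Prime → (p : ℤ) ∣ F.L n (some i) x → kz n ≤ p := by
        intro p hp hdv
        by_contra hc
        rcases Nat.lt_or_ge z p with h | h
        · exact hd p hp h (by omega) hdv
        · exact hR p hp h (hdv.trans hGi)
      have hr : F.Rg n z x ∧ Rou (kz n) (F.L n (some i) x).toNat :=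
        ⟨hR, fun p hp hdv => hall p hp ((hnat p).1 hdv)⟩
      rw [if_pos hR, if_pos hr]
      have h1 : W ρ (PK (2 * D) n') = 1 := by
        unfold W
        apply Finset.prod_eq_one
        intro p hp
        have hp' := mem_PK.1 hp
        have hpz : p ≤ z := by rw [hzd]; exact hp'.2
        have h0 : ρ p = 0 := by
          rw [hρ]
          unfold Fam.ri
          rw [if_neg]
          intro hQ
          have h1 := hQ.1
          rw [if_pos hpz] at h1
          apply hR p hp'.1 hpz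
          rw [hGx]
          exact dvd_mul_of_dvd_right h1 _
        rw [h0, sub_zero]
      have h2 : W ρ (Pr (z + 1) (kz n)) = 1 := by
        unfold W
        apply Finset.prod_eq_one
        intro p hp
        unfold Pr at hp
        rw [Finset.mem_filter, Finset.mem_range] at hp
        have h0 : ρ p = 0 := by
          rw [hρ]
          unfold Fam.ri
          rw [if_neg]
          intro hQ
          have h1 := hQ.1
          rw [if_neg (by omega)] at h1
          exact hd p hp.2.1 (by omega) hp.1 h1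
        rw [h0, sub_zero]
      have h3 : (((Pr (kz n) (ky C n)).filter
          (fun q => q ∣ (F.L n (some i) x).toNat)).card : ℝ) ≤ ∑ q ∈ Pr (kz n) (ky C n), ρ q := by
        rw [Finset.card_filter]
        push_cast
        apply Finset.sum_le_sum
        intro q hq
        unfold Pr at hq
        rw [Finset.mem_filter, Finset.mem_range] at hq
        split_ifs with hqd
        · apply le_of_eq
          symm
          exact hρ2 q hq.2.1 (by omega) (by omega) ((hnat q).1 hqd)
        · exact (h01 q).1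
      rw [h1, h2, one_mul, one_mul] at hmain
      have h4 := hchn C n (F.L n (some i) x).toNat (by omega) (by
          have : ((F.L n (some i) x).toNat : ℤ) < ((C * n : ℕ) : ℤ) := by
            rw [Int.toNat_of_nonneg hm0.le]
            push_cast
            exact hmC
          exact_mod_cast this) hk2 (fun p hp hdv => hall p hp ((hnat p).1 hdv))
      linarith
  · rw [if_neg hR, if_neg (fun h => hR h.1), mul_zero, sub_zero]
    have hex : ∃ p : ℕ, p.Prime ∧ p ≤ z ∧ (p : ℤ) ∣ (F.G n).eval x := by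
      by_contra hc
      push Not at hc
      exact hR (fun p hp hpz => hc p hp hpz)
    obtain ⟨p, hp, hpz, hdv⟩ := hex
    have h1 : W ρ (PK (2 * D) n') = 0 := by
      apply hW0 _ p _ (hρ1 p hp hpz hdv)
      rw [mem_PK]
      refine ⟨hp, ?_⟩
      rw [hzd] at hpz
      exact hpz
    rw [h1, zero_mul, zero_mul] at hmain
    exact hmain

theorem p_pwr : S_pwr := by
  intro hpt hchn hwin ι _ _ _ D F C B0 M hD hB0 hM hC
  have hwinF := hwin ι D F
  have ev1 := CM.F.cm_pw1_ev C (c := (F.c none : ℝ)) (hwinF.1 none).1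
  filter_upwards [hwinF.2, hC, ev1, eventually_ge_atTop (F.N0 + 2)] with n hwin hC ev1 hn
  intro n' P hPar Fp Fm hF x i ha
  obtain ⟨hL0, hNp, hwi⟩ := CM.F.cm_pw1_a0 F ha
  obtain ⟨hX1, hw2, -⟩ := hwin
  obtain ⟨-, -, hloc⟩ := hw2 none x hL0 hwi
  have hnR : (1 : ℝ) < n := by exact_mod_cast (show 1 < n by omega)
  have hN1 : (kz n : ℝ) + ky C n < (F.L n none x : ℝ) := by
    have h1 := (hloc none).1
    have h2 : F.X n none = F.t none * n + F.c none := rfl
    linarith
  have hN2 : kz n + ky C n < (F.L n none x).toNat := by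
    have h1 : ((kz n + ky C n : ℕ) : ℝ) < ((F.L n none x : ℤ) : ℝ) := by push_cast; exact hN1
    have h2 : ((kz n + ky C n : ℕ) : ℤ) < F.L n none x := by exact_mod_cast h1
    omega
  have hm0 : 0 < F.L n (some i) x := by
    have h1 := (hloc (some i)).1
    have h2 := hX1 (some i)
    have h3 : (0 : ℝ) < (F.L n (some i) x : ℝ) := by linarith
    exact_mod_cast h3
  have hmC : F.L n (some i) x < C * n := by
    have h1 := (hloc (some i)).2
    have h2 := hC (some i)
    have h3 : (F.L n (some i) x : ℝ) < C * n := by linarith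
    exact_mod_cast h3
  have hnk : (n : ℝ) ^ (1 / 1000 : ℝ) < (n : ℝ) ^ (1 / 11 : ℝ) :=
    Real.rpow_lt_rpow_of_exponent_lt hnR (by norm_num)
  have hkz : (n : ℝ) ^ (1 / 11 : ℝ) ≤ kz n := Nat.le_ceil _
  have hlev1 : (1 : ℝ) ≤ (lev (2 * D) n' : ℝ) := by
    have : 1 ≤ lev (2 * D) n' := by
      have := CM.F.cm_pw1_z D n'
      have h2 : 1 ≤ z0 D n' := Nat.one_le_two_pow
      omega
    exact_mod_cast this
  have hzk : z0 D n' < kz n := by
    have h1 : (z0 D n' : ℝ) ≤ (lev (2 * D) n' : ℝ) := by exact_mod_cast CM.F.cm_pw1_z D n'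
    have h2 : (lev (2 * D) n' : ℝ) ≤ (lev (2 * D) n' : ℝ) ^ 3 := by
      calc (lev (2 * D) n' : ℝ) = (lev (2 * D) n' : ℝ) ^ 1 := (pow_one _).symm
        _ ≤ _ := pow_le_pow_right₀ hlev1 (by norm_num)
    have h3 := hPar.hlev
    have h4 : (z0 D n' : ℝ) < (kz n : ℝ) := by linarith
    exact_mod_cast h4
  have hk2 : 2 ≤ kz n := by
    have h1 : (1 : ℝ) < kz n := lt_of_lt_of_le (Real.one_lt_rpow hnR (by norm_num)) hkz
    have h2 : 1 < kz n := by exact_mod_cast h1
    omega
  exact rc_pwr_pt F hpt hchn (by omega) hF x i hNp (by omega) (by omega) hzk hk2 hm0 hmC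

end Pool.Agent.RC
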