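import Pool.Agent.Lib.MP_bca3e5_nt.RC.Defs

set_option autoImplicit false

/-!
Project RC, piece sw: the exchange of two forms.
-/

namespace Pool.Agent.RC

open Finset Filter Polynomial
open Pool.Agent.MP89da58 (bil pw nn supp part kapD)
open Pool.Agent.MT (PJf LocD dvI ZI Dl sp)
open Pool.Agent.CM (Fam z0)
open Pool.Agent.CM.W (WPk yM)
open Pool.Agent.CM.F (DF qf Par Pre Wts)

theorem rc_sw_none {ι : Type} [DecidableEq ι] (i : ι) : sg i none = some i :=
  Equiv.swap_apply_left _ _

theorem rc_sw_some {ι : Type} [DecidableEq ι] (i : ι) : sg i (some i) = none :=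
  Equiv.swap_apply_right _ _

theorem rc_sw_ne {ι : Type} [DecidableEq ι] {i j : ι} (h : j ≠ i) : sg i (some j) = some j :=
  Equiv.swap_apply_of_ne_of_ne (by simp) (fun h' => h (Option.some.inj h'))

theorem p_sw : S_sw := by
  intro ι _ _ D F i
  refine ⟨?_, ?_, ?_, ?_, ?_⟩
  · intro n x
    constructor
    · change F.u (sg i none) * x + (F.b (sg i none) * n + F.c (sg i none)) = _
      rw [rc_sw_none]
      rfl
    · change F.u (sg i (some i)) * x + (F.b (sg i (some i)) * n + F.c (sg i (some i))) = _
      rw [rc_sw_some]
      rfl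
  · intro n
    constructor
    · change ((F.u (sg i none) : ℝ) * F.xi + F.b (sg i none)) * n + F.c (sg i none) = _
      rw [rc_sw_none]
      rfl
    · change ((F.u (sg i (some i)) : ℝ) * F.xi + F.b (sg i (some i))) * n + F.c (sg i (some i)) = _
      rw [rc_sw_some]
      rfl
  · intro n C h l
    exact h (sg i l)
  · intro B0 M n n' P h
    exact ⟨h.hzB, h.hlev, h.hP, fun p hp l l' hl =>
      h.hdet p hp (sg i l) (sg i l') (fun h' => hl ((sg i).injective h'))⟩
  · intro n B Y P g hg
    refine ⟨⟨hg.bd, hg.sup, fun α _ j k _ => ⟨by simp, by simp⟩⟩, ?_⟩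
    intro x
    unfold ZI
    apply Finset.sum_congr rfl
    intro α _
    by_cases hα : g α = 0
    · rw [hα]
      simp
    · have key : dvI (DF (sw F i) n P) x α ↔ dvI (DF F n P) x α := by
        unfold dvI
        apply forall_congr'
        intro j
        apply forall_congr'
        intro l
        constructor
        · intro h hl
          have h1 := hg.ne α hα j l hl
          have h2 : l ≠ i := fun h' => h1.2 (by rw [h'])
          have h3 := h hl
          change ((j : ℕ) : ℤ) ∣ F.u (sg i (some l)) * x +
            (F.b (sg i (some l)) * n + F.c (sg i (some l))) at h3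
          rw [rc_sw_ne h2] at h3
          exact h3
        · intro h hl
          have h1 := hg.ne α hα j l hl
          have h2 : l ≠ i := fun h' => h1.2 (by rw [h'])
          have h3 := h hl
          change ((j : ℕ) : ℤ) ∣ F.u (sg i (some l)) * x +
            (F.b (sg i (some l)) * n + F.c (sg i (some l)))
          rw [rc_sw_ne h2]
          exact h3
      by_cases h : dvI (DF F n P) x α
      · rw [if_pos h, if_pos (key.2 h)]
      · rw [if_neg h, if_neg (fun h' => h (key.1 h'))]

end Pool.Agent.RC
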