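import Pool.Agent.Lib.MP_bca3e5_nt.RC.Defs
import Pool.Agent.Lib.MP_0da313_nt.MT.OneDimU

set_option autoImplicit false

/-!
Project RC: Mertens' product and the range of the presieve.
-/

namespace Pool.Agent.RC

open Finset Filter
open Pool.Agent.MP89da58 (kapD)
open Pool.Agent.MT (kapD_split kapD_mul_log_le kapD_pos)
open Pool.Agent.CH.S (Pr gd V)
open Pool.Agent.CM (kz)

theorem p_vu : S_vu := by
  filter_upwards [eventually_ge_atTop (2 ^ 132)] with n hn
  intro z hz hzn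
  have hnR : (2 : ℝ) ^ (132 : ℕ) ≤ n := by exact_mod_cast hn
  have hn1 : (1 : ℝ) ≤ n := le_trans (by norm_num) hnR
  have hn0 : (0 : ℝ) < n := by linarith
  set m := kz n - 1 with hm
  have h1 : (2 : ℝ) ≤ (n : ℝ) ^ (1 / 132 : ℝ) := by
    calc (2 : ℝ) = ((2 : ℝ) ^ (132 : ℕ)) ^ (1 / 132 : ℝ) := by
          rw [← Real.rpow_natCast, ← Real.rpow_mul (by norm_num)]
          norm_num
      _ ≤ _ := Real.rpow_le_rpow (by positivity) hnR (by norm_num)
  have h2 : (1 : ℝ) ≤ (n : ℝ) ^ (1 / 12 : ℝ) := Real.one_le_rpow hn1 (by norm_num)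
  have h3 : (n : ℝ) ^ (1 / 12 : ℝ) + 1 ≤ (n : ℝ) ^ (1 / 11 : ℝ) := by
    have e : (n : ℝ) ^ (1 / 11 : ℝ) = (n : ℝ) ^ (1 / 12 : ℝ) * (n : ℝ) ^ (1 / 132 : ℝ) := by
      rw [← Real.rpow_add hn0]
      norm_num
    rw [e]
    nlinarith
  have h4 : (n : ℝ) ^ (1 / 11 : ℝ) ≤ (kz n : ℝ) := Nat.le_ceil _
  have hkz : 1 ≤ kz n := by
    have : (1 : ℝ) ≤ (kz n : ℝ) := by linarith
    exact_mod_cast this
  have hmR : (m : ℝ) = (kz n : ℝ) - 1 := by
    rw [hm, Nat.cast_sub hkz, Nat.cast_one]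
  have h5 : (n : ℝ) ^ (1 / 12 : ℝ) ≤ m := by
    rw [hmR]
    linarith
  have h6 : z ≤ m := by
    have h7 : (n : ℝ) ^ (1 / 1000 : ℝ) ≤ (n : ℝ) ^ (1 / 12 : ℝ) :=
      Real.rpow_le_rpow_of_exponent_le hn1 (by norm_num)
    have : (z : ℝ) ≤ m := by linarith
    exact_mod_cast this
  have hm1 : 1 ≤ m := by omega
  have hlog : Real.log n ≤ 12 * Real.log m := by
    have h7 : Real.log ((n : ℝ) ^ (1 / 12 : ℝ)) ≤ Real.log m :=
      Real.log_le_log (by positivity) h5
    rw [Real.log_rpow hn0] at h7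
    linarith
  have hPr : Pr (z + 1) (kz n) = (Ioc z m).filter Nat.Prime := by
    ext p
    unfold Pr
    simp only [Finset.mem_filter, Finset.mem_range, Finset.mem_Ioc]
    constructor
    · rintro ⟨a1, a2, a3⟩
      exact ⟨⟨by omega, by omega⟩, a2⟩
    · rintro ⟨⟨a1, a2⟩, a3⟩
      exact ⟨by omega, a3, by omega⟩
  have hV : V (z + 1) (kz n) ≤ ∏ p ∈ (Ioc z m).filter Nat.Prime, (1 - 1 / (p : ℝ)) := by
    unfold V
    rw [hPr]
    apply Finset.prod_le_prod
    · intro p hp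
      rw [Finset.mem_filter, Finset.mem_Ioc] at hp
      have hp3 : (3 : ℝ) ≤ p := by exact_mod_cast (by omega : 3 ≤ p)
      unfold gd
      have : 1 / ((p : ℝ) - 1) ≤ 1 := by
        rw [div_le_one (by linarith)]
        linarith
      linarith
    · intro p hp
      rw [Finset.mem_filter, Finset.mem_Ioc] at hp
      have hp3 : (3 : ℝ) ≤ p := by exact_mod_cast (by omega : 3 ≤ p)
      unfold gd
      have : 1 / (p : ℝ) ≤ 1 / ((p : ℝ) - 1) :=
        one_div_le_one_div_of_le (by linarith) (by linarith)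
      linarith
  have hκ := kapD_pos z
  have hκm := kapD_pos m
  have hL0 : 0 ≤ Real.log n := Real.log_natCast_nonneg n
  have h8 : V (z + 1) (kz n) * kapD z ≤ kapD m := by
    rw [kapD_split z m h6, mul_comm (kapD z)]
    exact mul_le_mul_of_nonneg_right hV hκ.le
  have h9 := kapD_mul_log_le m hm1
  calc V (z + 1) (kz n) * (kapD z * Real.log n) = V (z + 1) (kz n) * kapD z * Real.log n := by ring
    _ ≤ kapD m * Real.log n := mul_le_mul_of_nonneg_right h8 hL0
    _ ≤ kapD m * (12 * Real.log m) := mul_le_mul_of_nonneg_left hlog hκm.le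
    _ = 12 * (kapD m * Real.log m) := by ring
    _ ≤ 12 := by linarith

end Pool.Agent.RC
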